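import Mathlib

/-! Hilbert spaces with a prescribed Gram kernel, and weak limits along ultrafilters. -/

set_option autoImplicit false

namespace Pool.Agent.Y798.RG

open Filter Topology

/-- a positive semidefinite real kernel is a Gram kernel -/
theorem exists_gram {X : Type} (k : X → X → ℝ) (hs : ∀ a b, k a b = k b a)
    (hp : ∀ x : X →₀ ℝ, 0 ≤ x.sum fun a s => x.sum fun b t => s * t * k a b) :
    ∃ (H : Type) (_ : NormedAddCommGroup H) (_ : InnerProductSpace ℝ H) (_ : CompleteSpace H)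
      (v : X → H), ∀ a b, inner ℝ (v a) (v b) = k a b := by
  classical
  let A : Matrix X X (ℝ →L[ℝ] ℝ) := Matrix.of fun a b => k a b • ContinuousLinearMap.id ℝ ℝ
  have hA : A.PosSemidef := by
    have h0 : A.PosSemidef ↔ A.IsHermitian ∧ ∀ (vv : X →₀ ℝ),
        0 ≤ RCLike.re (vv.sum fun x w => vv.sum fun x' w' => inner ℝ (A x' x w) w') :=
      (RKHS.posSemidef_tfae (K := A)).out 0 2
    refine h0.2 ⟨?_, fun vv => ?_⟩
    · ext a b
      simp only [Matrix.conjTranspose_apply, A, Matrix.of_apply, star_smul, hs b a]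
      simp [ContinuousLinearMap.star_eq_adjoint]
    · have h1 := hp vv
      convert h1 using 1
      simp only [RCLike.re_to_real]
      refine Finsupp.sum_congr fun a _ => Finsupp.sum_congr fun b _ => ?_
      simp [A, hs b a]
      ring
  have : Fact A.PosSemidef := ⟨hA⟩
  refine ⟨RKHS.OfKernel A, inferInstance, inferInstance, inferInstance,
    fun a => RKHS.kerFun (RKHS.OfKernel A) a 1, fun a b => ?_⟩
  have h1 := RKHS.kernel_inner (RKHS.OfKernel A) b a (1 : ℝ) 1
  rw [RKHS.OfKernel.kernel_ofKernel] at h1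
  rw [← h1]
  simp [A, hs b a]

section
variable {H : Type} [NormedAddCommGroup H] [InnerProductSpace ℝ H] [CompleteSpace H]

/-- bounded families have weak limits along ultrafilters -/
theorem weak_lim {ι : Type} (U : Ultrafilter ι) (w : ι → H) {C : ℝ} (hC : ∀ i, ‖w i‖ ≤ C) :
    ∃ e : H, ∀ x : H, Tendsto (fun i => inner ℝ x (w i)) U (𝓝 (inner ℝ x e)) := by
  have hl : ∀ x : H, ∃ y : ℝ, Tendsto (fun i => inner ℝ x (w i)) U (𝓝 y) ∧ |y| ≤ ‖x‖ * C := by
    intro x
    have h1 : ∀ i, inner ℝ x (w i) ∈ Set.Icc (-(‖x‖ * C)) (‖x‖ * C) := fun i =>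
      abs_le.1 ((abs_real_inner_le_norm x (w i)).trans
        (mul_le_mul_of_nonneg_left (hC i) (norm_nonneg _)))
    obtain ⟨y, hy, hy'⟩ := (isCompact_Icc (a := -(‖x‖ * C)) (b := ‖x‖ * C)).ultrafilter_le_nhds
      (U.map fun i => inner ℝ x (w i)) (by
        rw [Ultrafilter.coe_map, le_principal_iff, Filter.mem_map]
        exact Filter.Eventually.of_forall h1)
    exact ⟨y, hy', abs_le.2 hy⟩
  choose L hL hLb using hl
  let f : H →ₗ[ℝ] ℝ :=
    { toFun := L
      map_add' := fun x y => by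
        refine tendsto_nhds_unique (hL (x + y)) (((hL x).add (hL y)).congr fun i => ?_)
        rw [inner_add_left]
      map_smul' := fun c x => by
        refine tendsto_nhds_unique (hL (c • x)) (((hL x).const_mul c).congr fun i => ?_)
        rw [real_inner_smul_left] }
  let g : H →L[ℝ] ℝ := f.mkContinuous C fun x => by
    rw [Real.norm_eq_abs, mul_comm]
    exact hLb x
  refine ⟨(InnerProductSpace.toDual ℝ H).symm g, fun x => ?_⟩
  rw [real_inner_comm, InnerProductSpace.toDual_symm_apply]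
  exact hL x

/-- limits of integers are integers -/
theorem int_lim {ι : Type} {l : Filter ι} [l.NeBot] {n : ι → ℤ} {y : ℝ}
    (h : Tendsto (fun i => (n i : ℝ)) l (𝓝 y)) : ∃ m : ℤ, y = m := by
  have h1 : y ∈ Set.range ((↑) : ℤ → ℝ) :=
    Int.isClosedEmbedding_coe_real.isClosed_range.mem_of_tendsto h
      (Filter.Eventually.of_forall fun i => ⟨n i, rfl⟩)
  obtain ⟨m, hm⟩ := h1
  exact ⟨m, hm.symm⟩

theorem int_lim_eq {ι : Type} {l : Filter ι} [l.NeBot] {n : ι → ℤ} {m : ℤ}
    (h : Tendsto (fun i => (n i : ℝ)) l (𝓝 (m : ℝ))) : ∀ᶠ i in l, n i = m := by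
  have h1 := Metric.tendsto_nhds.1 h (1 / 2) (by norm_num)
  filter_upwards [h1] with i hi
  rw [Real.dist_eq] at hi
  have h2 : |((n i - m : ℤ) : ℝ)| < 1 := by
    push_cast
    linarith
  have h3 : |n i - m| < 1 := by exact_mod_cast h2
  have h4 := Int.abs_lt_one_iff.1 h3
  omega

/-- unit vectors with inner product `±1` -/
theorem eq_of_inner_one {x y : H} (hx : inner ℝ x x = (1 : ℝ)) (hy : inner ℝ y y = (1 : ℝ))
    {t : ℤ} (ht : t = 1 ∨ t = -1) (h : inner ℝ x y = (t : ℝ)) : x = (t : ℝ) • y := by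
  have ht2 : (t : ℝ) * t = 1 := by
    rcases ht with rfl | rfl <;> norm_num
  have h1 : inner ℝ (x - (t : ℝ) • y) (x - (t : ℝ) • y) = (0 : ℝ) := by
    rw [inner_sub_left, inner_sub_right, inner_sub_right, real_inner_smul_right,
      real_inner_smul_left, real_inner_smul_left, real_inner_smul_right, hx, hy,
      real_inner_comm x y, h]
    nlinarith
  exact sub_eq_zero.1 (inner_self_eq_zero.1 h1)

/-- two vectors of norm `√2` with inner product `2` -/
theorem eq_of_inner_two {x y : H} (hx : inner ℝ x x = (2 : ℝ)) (hy : inner ℝ y y = (2 : ℝ))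
    (h : inner ℝ x y = (2 : ℝ)) : x = y := by
  have h1 : inner ℝ (x - y) (x - y) = (0 : ℝ) := by
    rw [inner_sub_left, inner_sub_right, inner_sub_right, hx, hy, real_inner_comm x y, h]
    norm_num
  exact sub_eq_zero.1 (inner_self_eq_zero.1 h1)

/-- integral inner products of unit vectors -/
theorem int_unit {x y : H} (hx : inner ℝ x x = (1 : ℝ)) (hy : inner ℝ y y = (1 : ℝ)) {t : ℤ}
    (h : inner ℝ x y = (t : ℝ)) : t = 0 ∨ t = 1 ∨ t = -1 := by
  have h1 := abs_real_inner_le_norm x y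
  have hx1 : ‖x‖ = 1 := by
    have : ‖x‖ ^ 2 = 1 := by rw [← real_inner_self_eq_norm_sq, hx]
    have h0 := norm_nonneg x
    nlinarith
  have hy1 : ‖y‖ = 1 := by
    have : ‖y‖ ^ 2 = 1 := by rw [← real_inner_self_eq_norm_sq, hy]
    have h0 := norm_nonneg y
    nlinarith
  rw [h, hx1, hy1, mul_one] at h1
  have h2 : |t| ≤ 1 := by exact_mod_cast h1
  rw [abs_le] at h2
  omega

end

end Pool.Agent.Y798.RG
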