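import Pool.Agent.W353.SP.Inst

/-! Laws of real numbers in `[-2, 2]` from their Chebyshev moments, and the laws of the theorem. -/

set_option autoImplicit false

namespace Pool.Agent.Y798.RG

open Complex Filter Topology NumberField IsDedekindDomain MeasureTheory Polynomial.Chebyshev
  Pool.Agent.W353.SP

/-- a linear functional on functions on `[-2, 2]` which is bounded for the maximum norm -/
structure Lf (L : (ℝ → ℝ) → ℝ) : Prop where
  add : ∀ f g, Continuous f → Continuous g → L (fun t => f t + g t) = L f + L g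
  smul : ∀ (a : ℝ) f, L (fun t => a * f t) = a * L f
  bdd : ∃ C : ℝ, 0 ≤ C ∧ ∀ f, Continuous f → ∀ b, (∀ t ∈ Set.Icc (-2 : ℝ) 2, |f t| ≤ b) →
    |L f| ≤ C * b

section
variable {K : Type} [Field K] [NumberField K] {ι : Type} {l : Filter ι}
  {E : ι → (HeightOneSpectrum (𝓞 K) → ℝ) → ℝ}

theorem bd_comp {a : HeightOneSpectrum (𝓞 K) → ℝ} (ha : ∀ v, a v ∈ Set.Icc (-2 : ℝ) 2) {f : ℝ → ℝ}
    (hf : Continuous f) : Bd fun v => f (a v) := by
  obtain ⟨B, hB⟩ := (isCompact_Icc (a := (-2 : ℝ)) (b := 2)).exists_bound_of_continuousOn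
    hf.continuousOn
  exact ⟨B, fun v => hB _ (ha v)⟩

/-- **Laws from moments.** -/
theorem law_of_moments (h : Mn l E) {a : HeightOneSpectrum (𝓞 K) → ℝ}
    (ha : ∀ v, a v ∈ Set.Icc (-2 : ℝ) 2) {L : (ℝ → ℝ) → ℝ} (hL : Lf L)
    (hm : ∀ k : ℤ, Hs l E (fun v => (C ℝ k).eval (a v)) (L fun t => (C ℝ k).eval t)) (f : ℝ → ℝ)
    (hf : Continuous f) : Hs l E (fun v => f (a v)) (L f) := by
  -- powers
  have h1 : ∀ (n : ℕ) (k : ℤ), Hs l E (fun v => a v ^ n * (C ℝ k).eval (a v))
      (L fun t => t ^ n * (C ℝ k).eval t) := by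
    intro n
    induction n with
    | zero =>
      intro k
      simpa using hm k
    | succ n ih =>
      intro k
      have e : ∀ t : ℝ, t ^ (n + 1) * (C ℝ k).eval t =
          t ^ n * (C ℝ (k + 1)).eval t + t ^ n * (C ℝ (k - 1)).eval t := by
        intro t
        rw [C_add_one]
        simp only [Polynomial.eval_sub, Polynomial.eval_mul, Polynomial.eval_X]
        ring
      have e2 : (fun t : ℝ => t ^ (n + 1) * (C ℝ k).eval t) =
          fun t => t ^ n * (C ℝ (k + 1)).eval t + t ^ n * (C ℝ (k - 1)).eval t := funext e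
      rw [e2, hL.add _ _ (by fun_prop) (by fun_prop)]
      exact (h.hsAdd (ih (k + 1)) (ih (k - 1))).congr (fun v => (e (a v)).symm) rfl
  have h2 : ∀ n : ℕ, Hs l E (fun v => a v ^ n) (L fun t => t ^ n) := by
    intro n
    have e : (fun t : ℝ => t ^ n) = fun t => (1 / 2 : ℝ) * (t ^ n * (C ℝ 0).eval t) := by
      funext t
      rw [C_zero]
      simp
      ring
    have e3 := h.hsMul (h1 n 0) (1 / 2)
    rw [e, hL.smul]
    refine e3.congr (fun v => ?_) rfl
    rw [C_zero]
    simp
    ring
  have h3 : ∀ p : Polynomial ℝ, Hs l E (fun v => p.eval (a v)) (L fun t => p.eval t) := by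
    intro p
    induction p using Polynomial.induction_on' with
    | add p q hp hq =>
      have e : (fun t : ℝ => (p + q).eval t) = fun t => p.eval t + q.eval t := by
        funext t
        rw [Polynomial.eval_add]
      rw [e, hL.add _ _ (by fun_prop) (by fun_prop)]
      exact (h.hsAdd hp hq).congr (fun v => by rw [Polynomial.eval_add]) rfl
    | monomial n b =>
      have e : (fun t : ℝ => (Polynomial.monomial n b).eval t) = fun t => b * t ^ n := by
        funext t
        rw [Polynomial.eval_monomial]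
      rw [e, hL.smul]
      exact (h.hsMul (h2 n) b).congr (fun v => by rw [Polynomial.eval_monomial]) rfl
  -- approximation
  refine ⟨bd_comp ha hf, ?_⟩
  obtain ⟨D, hD0, hD⟩ := hL.bdd
  rw [Metric.tendsto_nhds]
  intro ε hε
  set δ : ℝ := ε / (2 * (3 + D)) with hδ
  have hδ0 : 0 < δ := by positivity
  obtain ⟨p, hp⟩ := exists_polynomial_near_of_continuousOn (-2) 2 f hf.continuousOn δ hδ0
  have hpc : Continuous fun t : ℝ => p.eval t := by fun_prop
  have hd : ∀ v, |f (a v) + -p.eval (a v)| ≤ δ := fun v => by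
    rw [← sub_eq_add_neg, abs_sub_comm]
    exact (hp _ (ha v)).le
  have hLd : |L f - L fun t => p.eval t| ≤ D * δ := by
    have e1 : L f = (L fun t => p.eval t) + L fun t => f t + -p.eval t := by
      rw [← hL.add _ _ hpc (by fun_prop)]
      congr 1
      funext t
      ring
    rw [e1, add_sub_cancel_left]
    refine hD _ (by fun_prop) δ fun t ht => ?_
    rw [← sub_eq_add_neg, abs_sub_comm]
    exact (hp t ht).le
  have h4 := Metric.tendsto_nhds.1 (h3 p).2 δ hδ0
  have hneg : Bd fun v => -p.eval (a v) := (bd_comp ha hpc).neg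
  filter_upwards [h4, h.bound hd, h.add _ _ (bd_comp ha hf) hneg] with i h5 h6 h7
  rw [Real.dist_eq] at h5 ⊢
  have h8 : E i (fun v => -p.eval (a v)) = -E i (fun v => p.eval (a v)) := by
    have := h.smul (-1) (fun v => p.eval (a v)) i
    simp only [neg_mul, one_mul] at this
    exact this
  rw [h7, h8, abs_of_pos hδ0] at h6
  have h9 : |E i (fun v => f (a v)) - L f| ≤ 2 * δ + δ + D * δ := by
    calc |E i (fun v => f (a v)) - L f| =
        |(E i (fun v => f (a v)) + -E i (fun v => p.eval (a v))) +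
          (E i (fun v => p.eval (a v)) - L fun t => p.eval t) -
          (L f - L fun t => p.eval t)| := by ring_nf
      _ ≤ |(E i (fun v => f (a v)) + -E i (fun v => p.eval (a v))) +
          (E i (fun v => p.eval (a v)) - L fun t => p.eval t)| +
          |L f - L fun t => p.eval t| := abs_sub _ _
      _ ≤ 2 * δ + δ + D * δ :=
        add_le_add ((abs_add_le _ _).trans (add_le_add h6 h5.le)) hLd
  refine lt_of_le_of_lt h9 ?_
  have h10 : δ * (2 * (3 + D)) = ε := by
    rw [hδ]
    field_simp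
  nlinarith

end

/-- the integral over the angle -/
noncomputable def Lth (w : ℝ → ℝ) (f : ℝ → ℝ) : ℝ :=
  Real.pi⁻¹ * ∫ θ in (0 : ℝ)..Real.pi, f (2 * Real.cos θ) * w θ

theorem two_cos_mem (θ : ℝ) : 2 * Real.cos θ ∈ Set.Icc (-2 : ℝ) 2 := by
  have h1 := Real.neg_one_le_cos θ
  have h2 := Real.cos_le_one θ
  exact ⟨by linarith, by linarith⟩

theorem lf_Lth {w : ℝ → ℝ} (hw : Continuous w) {B : ℝ} (hB0 : 0 ≤ B) (hB : ∀ θ, |w θ| ≤ B) :
    Lf (Lth w) where
  add f g hf hg := by
    unfold Lth
    rw [← mul_add, ← intervalIntegral.integral_add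
      (Continuous.intervalIntegrable (by fun_prop) _ _)
      (Continuous.intervalIntegrable (by fun_prop) _ _)]
    congr 2
    funext θ
    ring
  smul a f := by
    unfold Lth
    have e : (fun θ => a * f (2 * Real.cos θ) * w θ) =
        fun θ => a * (f (2 * Real.cos θ) * w θ) := by
      funext θ
      ring
    rw [e, intervalIntegral.integral_const_mul]
    ring
  bdd := by
    refine ⟨B, hB0, fun f hf b hb => ?_⟩
    have hb0 : 0 ≤ b := (abs_nonneg _).trans (hb 0 (by norm_num))
    unfold Lth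
    rw [abs_mul, abs_of_pos (inv_pos.2 Real.pi_pos)]
    have h1 : ‖∫ θ in (0 : ℝ)..Real.pi, f (2 * Real.cos θ) * w θ‖ ≤ b * B * |Real.pi - 0| := by
      refine intervalIntegral.norm_integral_le_of_norm_le_const fun θ _ => ?_
      rw [Real.norm_eq_abs, abs_mul]
      exact mul_le_mul (hb _ (two_cos_mem θ)) (hB θ) (abs_nonneg _) hb0
    rw [sub_zero, abs_of_pos Real.pi_pos, Real.norm_eq_abs] at h1
    calc Real.pi⁻¹ * |∫ θ in (0 : ℝ)..Real.pi, f (2 * Real.cos θ) * w θ| ≤
        Real.pi⁻¹ * (b * B * Real.pi) := mul_le_mul_of_nonneg_left h1 (by positivity)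
      _ = B * b := by
        field_simp

theorem Lf.add' {L L' : (ℝ → ℝ) → ℝ} (h : Lf L) (h' : Lf L') : Lf fun f => L f + L' f where
  add f g hf hg := by
    rw [h.add f g hf hg, h'.add f g hf hg]
    ring
  smul a f := by
    rw [h.smul, h'.smul]
    ring
  bdd := by
    obtain ⟨C, hC0, hC⟩ := h.bdd
    obtain ⟨C', hC0', hC'⟩ := h'.bdd
    refine ⟨C + C', by positivity, fun f hf b hb => ?_⟩
    rw [add_mul]
    exact (abs_add_le _ _).trans (add_le_add (hC f hf b hb) (hC' f hf b hb))

theorem Lf.mul' {L : (ℝ → ℝ) → ℝ} (h : Lf L) (a : ℝ) : Lf fun f => a * L f where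
  add f g hf hg := by
    rw [h.add f g hf hg]
    ring
  smul b f := by
    rw [h.smul]
    ring
  bdd := by
    obtain ⟨C, hC0, hC⟩ := h.bdd
    refine ⟨|a| * C, by positivity, fun f hf b hb => ?_⟩
    rw [abs_mul, mul_assoc]
    exact mul_le_mul_of_nonneg_left (hC f hf b hb) (abs_nonneg _)

/-- the mean over finitely many points -/
noncomputable def Lpt (n : ℕ) (p : ℕ → ℝ) (f : ℝ → ℝ) : ℝ :=
  (n : ℝ)⁻¹ * ∑ j ∈ Finset.range n, f (2 * Real.cos (p j))

theorem lf_Lpt {n : ℕ} (hn : 0 < n) (p : ℕ → ℝ) : Lf (Lpt n p) where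
  add f g _ _ := by
    unfold Lpt
    rw [Finset.sum_add_distrib, mul_add]
  smul a f := by
    unfold Lpt
    rw [← Finset.mul_sum]
    ring
  bdd := by
    refine ⟨1, zero_le_one, fun f _ b hb => ?_⟩
    have hn' : (0 : ℝ) < n := by exact_mod_cast hn
    unfold Lpt
    rw [abs_mul, abs_of_pos (inv_pos.2 hn'), one_mul, inv_mul_le_iff₀ hn']
    refine (Finset.abs_sum_le_sum_abs _ _).trans ?_
    have h1 := Finset.sum_le_card_nsmul (Finset.range n) (fun j => |f (2 * Real.cos (p j))|) b
      fun j _ => hb _ (two_cos_mem _)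
    rwa [Finset.card_range, nsmul_eq_mul] at h1

/-- integrals of cosines -/
theorem int_cos (k : ℤ) : ∫ θ in (0 : ℝ)..Real.pi, Real.cos (k * θ) =
    if k = 0 then Real.pi else 0 := by
  split_ifs with hk
  · rw [hk]
    simp
  · have hk' : (k : ℝ) ≠ 0 := by exact_mod_cast hk
    rw [intervalIntegral.integral_comp_mul_left (fun x => Real.cos x) hk', integral_cos,
      Real.sin_int_mul_pi]
    simp

/-- the moments of the density `1 + e cos mθ` -/
theorem mom_trig (m : ℤ) (hm : 0 < m) (e : ℝ) (k : ℤ) :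
    Lth (fun θ => 1 + e * Real.cos (m * θ)) (fun t => (C ℝ k).eval t) =
      if k = 0 then 2 else if k = m ∨ k = -m then e else 0 := by
  have hpi := Real.pi_pos.ne'
  unfold Lth
  have e1 : (fun θ => (C ℝ k).eval (2 * Real.cos θ) * (1 + e * Real.cos (m * θ))) =
      fun θ => 2 * Real.cos (k * θ) + (e * Real.cos (((k + m : ℤ) : ℝ) * θ) +
        e * Real.cos (((k - m : ℤ) : ℝ) * θ)) := by
    funext θ
    rw [C_two_mul_real_cos]
    have h1 : Real.cos (((k + m : ℤ) : ℝ) * θ) =
        Real.cos (k * θ) * Real.cos (m * θ) - Real.sin (k * θ) * Real.sin (m * θ) := by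
      rw [← Real.cos_add]
      congr 1
      push_cast
      ring
    have h2 : Real.cos (((k - m : ℤ) : ℝ) * θ) =
        Real.cos (k * θ) * Real.cos (m * θ) + Real.sin (k * θ) * Real.sin (m * θ) := by
      rw [← Real.cos_sub]
      congr 1
      push_cast
      ring
    rw [h1, h2]
    ring
  rw [e1, intervalIntegral.integral_add (Continuous.intervalIntegrable (by fun_prop) _ _)
    (Continuous.intervalIntegrable (by fun_prop) _ _),
    intervalIntegral.integral_add (Continuous.intervalIntegrable (by fun_prop) _ _)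
    (Continuous.intervalIntegrable (by fun_prop) _ _), intervalIntegral.integral_const_mul,
    intervalIntegral.integral_const_mul, intervalIntegral.integral_const_mul, int_cos, int_cos,
    int_cos]
  by_cases hk : k = 0
  · rw [if_pos hk, if_neg (by omega), if_neg (by omega), if_pos hk]
    field_simp
    ring
  · rw [if_neg hk, if_neg hk]
    by_cases h1 : k = m
    · rw [if_neg (by omega), if_pos (by omega), if_pos (Or.inl h1)]
      field_simp
      ring
    · by_cases h2 : k = -m
      · rw [if_pos (by omega), if_neg (by omega), if_pos (Or.inr h2)]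
        field_simp
        ring
      · rw [if_neg (by omega), if_neg (by omega), if_neg (by
          rintro (h3 | h3)
          · exact h1 h3
          · exact h2 h3)]
        ring

/-- the angles with `e^{imθ} = e^{iφ}` -/
noncomputable def ang (m : ℕ) (φ : ℝ) (j : ℕ) : ℝ := (2 * Real.pi * j + φ) / m

/-- sums of cosines over these angles -/
theorem sum_ang {m : ℕ} (hm : 0 < m) {e : ℤ} {φ : ℝ} (he : (e = 1 ∧ φ = 0) ∨ (e = -1 ∧ φ = Real.pi))
    (k : ℤ) : (m : ℝ)⁻¹ * ∑ j ∈ Finset.range m, Real.cos (k * ang m φ j) =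
      if (m : ℤ) ∣ k then ((e ^ (k / m).natAbs : ℤ) : ℝ) else 0 := by
  have hm' : (m : ℝ) ≠ 0 := by exact_mod_cast hm.ne'
  have hmC : (m : ℂ) ≠ 0 := by exact_mod_cast hm.ne'
  set ζ : ℂ := Complex.exp (2 * Real.pi * I * k / m) with hζ
  set z : ℂ := Complex.exp (I * k * φ / m) with hz
  have h1 : ∀ j : ℕ, Complex.exp (I * (k * ang m φ j : ℝ)) = z * ζ ^ j := by
    intro j
    rw [hz, hζ, ← Complex.exp_nat_mul, ← Complex.exp_add]
    congr 1
    unfold ang
    push_cast
    field_simp
    ring
  have h2 : ∀ j : ℕ, Real.cos (k * ang m φ j) = (z * ζ ^ j).re := by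
    intro j
    rw [← h1, mul_comm I, Complex.exp_ofReal_mul_I_re]
  have h3 : ∑ j ∈ Finset.range m, Real.cos (k * ang m φ j) =
      (z * ∑ j ∈ Finset.range m, ζ ^ j).re := by
    rw [Finset.mul_sum, Complex.re_sum]
    exact Finset.sum_congr rfl fun j _ => h2 j
  rw [h3]
  split_ifs with hk
  · obtain ⟨q, rfl⟩ := hk
    have hm'' : (m : ℤ) ≠ 0 := by exact_mod_cast hm.ne'
    have hζ1 : ζ = 1 := by
      rw [hζ, Complex.exp_eq_one_iff]
      refine ⟨q, ?_⟩
      push_cast
      field_simp
    rw [hζ1]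
    simp only [one_pow, Finset.sum_const, Finset.card_range, nsmul_eq_mul, mul_one]
    rw [Int.mul_ediv_cancel_left _ hm'']
    have h4 : z = ((e ^ q.natAbs : ℤ) : ℂ) := by
      rw [hz]
      rcases he with ⟨he, hφ⟩ | ⟨he, hφ⟩
      · rw [he, hφ]
        simp
      · rw [he, hφ]
        have e1 : I * (((m : ℤ) * q : ℤ) : ℂ) * (Real.pi : ℂ) / m = q * (Real.pi * I) := by
          push_cast
          field_simp
        rw [e1, Complex.exp_int_mul, Complex.exp_pi_mul_I]
        rcases Int.natAbs_eq q with h5 | h5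
        · conv_lhs => rw [h5]
          rw [zpow_natCast]
          push_cast
          rfl
        · conv_lhs => rw [h5]
          rw [zpow_neg, zpow_natCast]
          push_cast
          rw [← inv_pow]
          norm_num
    rw [h4, mul_comm _ (m : ℂ), ← Complex.ofReal_natCast, ← Complex.ofReal_intCast,
      ← Complex.ofReal_mul, Complex.ofReal_re, ← mul_assoc, inv_mul_cancel₀ hm', one_mul]
  · have hζ1 : ζ ≠ 1 := by
      intro h4
      rw [hζ, Complex.exp_eq_one_iff] at h4
      obtain ⟨n, hn⟩ := h4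
      apply hk
      refine ⟨n, ?_⟩
      have h5 : (k : ℂ) = m * n := by
        field_simp at hn
        exact hn
      exact_mod_cast h5
    have hζm : ζ ^ m = 1 := by
      rw [hζ, ← Complex.exp_nat_mul, Complex.exp_eq_one_iff]
      exact ⟨k, by field_simp⟩
    have h4 : ∑ j ∈ Finset.range m, ζ ^ j = 0 := by
      have h5 := geom_sum_mul ζ m
      rw [hζm, sub_self] at h5
      exact (mul_eq_zero.1 h5).resolve_right (sub_ne_zero.2 hζ1)
    rw [h4]
    simp

end Pool.Agent.Y798.RG
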