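import Pool.Agent.Y798.RG.Sym

/-! The laws of the traces; the natural density in the generic case. -/

set_option autoImplicit false

namespace Pool.Agent.Y798.RG

open Complex Filter Topology ComplexConjugate NumberField IsDedekindDomain
  Polynomial.Chebyshev Pool.Agent.W540.BE Pool.Agent.W353.SP Pool.Agent.TH553.ST
  Pool.Agent.TH553.RS

section
variable {K : Type} [Field K] [NumberField K] {α : HeightOneSpectrum (𝓞 K) → ℂ}

/-- the density `1 + e cos mθ` -/
noncomputable def Ltr (m : ℕ) (e : ℝ) : (ℝ → ℝ) → ℝ := Lth fun θ => 1 + e * Real.cos (m * θ)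

theorem lf_Ltr (m : ℕ) (e : ℝ) : Lf (Ltr m e) :=
  lf_Lth (B := 1 + |e|) (by fun_prop) (by positivity) fun θ => by
    refine (abs_add_le _ _).trans ?_
    rw [abs_one, abs_mul]
    have := Real.abs_cos_le_one (m * θ)
    have h0 := abs_nonneg e
    nlinarith

/-- half the uniform measure and half the measure on finitely many points -/
noncomputable def Lmx (m : ℕ) (φ : ℝ) (f : ℝ → ℝ) : ℝ :=
  (1 / 2) * Ltr 1 0 f + (1 / 2) * Lpt m (ang m φ) f

theorem lf_Lmx {m : ℕ} (hm : 0 < m) (φ : ℝ) : Lf (Lmx m φ) :=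
  ((lf_Ltr 1 0).mul' (1 / 2)).add' ((lf_Lpt hm (ang m φ)).mul' (1 / 2))

theorem mom_Ltr {m : ℕ} (hm : 0 < m) (e : ℝ) (k : ℤ) :
    Ltr m e (fun t => (C ℝ k).eval t) = if k = 0 then 2 else if k = m ∨ k = -m then e else 0 := by
  have h := mom_trig (m : ℤ) (by exact_mod_cast hm) e k
  rw [← h]
  unfold Ltr
  congr 1

theorem mom_Lmx {m : ℕ} (hm : 0 < m) {e : ℤ} {φ : ℝ}
    (he : (e = 1 ∧ φ = 0) ∨ (e = -1 ∧ φ = Real.pi)) (k : ℤ) :
    Lmx m φ (fun t => (C ℝ k).eval t) =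
      (if k = 0 then 1 else 0) + if (m : ℤ) ∣ k then ((e ^ (k / m).natAbs : ℤ) : ℝ) else 0 := by
  unfold Lmx
  rw [mom_Ltr one_pos]
  have h1 := sum_ang hm he k
  have h2 : Lpt m (ang m φ) (fun t => (C ℝ k).eval t) =
      2 * ((m : ℝ)⁻¹ * ∑ j ∈ Finset.range m, Real.cos (k * ang m φ j)) := by
    unfold Lpt
    simp only [C_two_mul_real_cos]
    rw [← Finset.mul_sum]
    ring
  rw [h2, h1]
  split_ifs <;> ring

/-- the Dirichlet law from the shape of the moments -/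
theorem dlaw (hα : ∀ v, ‖α v‖ = 1) {c : ℤ → ℤ}
    (hc : ∀ k, D (fun v => (C ℝ k).eval (2 * (α v).re)) (c k)) {L : (ℝ → ℝ) → ℝ} (hL : Lf L)
    (h : ∀ k, L (fun t => (C ℝ k).eval t) = c k) (f : ℝ → ℝ) (hf : Continuous f) :
    D (fun v => f (2 * (α v).re)) (L f) :=
  law_of_moments (mnD K) (fun v => mem_Icc_of_norm (hα v)) hL
    (fun k => (hc k).congr (fun _ => rfl) (h k).symm) f hf

/-- the height has mean square `1/2` -/
theorem hh_sq {τ : ℝ} (hτ : τ ≠ 0) : D (fun v : HeightOneSpectrum (𝓞 K) => hh τ v ^ 2) (1 / 2) := by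
  have h1 : D (fun v : HeightOneSpectrum (𝓞 K) => hh (2 * τ) v) 0 := by
    refine ⟨bd_hh _, ?_⟩
    have h2 : Tendsto (fun n : ℕ => (∑ v ∈ upto K n, (1 : ℂ)) / (Nat.primeCounting n : ℂ)) atTop
        (𝓝 ((1 : ℝ) : ℂ)) := by
      refine ((Complex.continuous_ofReal.tendsto _).comp (card_ratio (K := K))).congr fun n => ?_
      simp
    have h3 := mean_edge (F := K) (g := fun _ => 1) (B := 1) (fun _ => by simp) 1 h2 (2 * τ)
    rw [if_neg (by simpa using hτ)] at h3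
    refine h3.congr fun ε => ?_
    unfold ED hh
    congr 2
    funext v
    rw [one_mul]
  refine ((mnD K).hsAdd ((mnD K).hsMul (mnD K).hsOne (1 / 2))
    ((mnD K).hsMul h1 (1 / 2))).congr (fun v => ?_) (by norm_num)
  unfold hh
  set w : ℂ := ((nm K v : ℕ) : ℂ) ^ (-(τ * I : ℂ)) with hw
  have h4 : ((nm K v : ℕ) : ℂ) ^ (-(((2 * τ : ℝ) : ℂ) * I)) = w ^ 2 := by
    rw [hw, ← Complex.cpow_nat_mul]
    congr 1
    push_cast
    ring
  have h5 : w.re * w.re + w.im * w.im = 1 := by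
    have h6 : ‖w‖ = 1 := norm_cpow_I (by have := two_le_nm v; omega) τ
    have h7 : Complex.normSq w = 1 := by rw [Complex.normSq_eq_norm_sq, h6]; norm_num
    rwa [Complex.normSq_apply] at h7
  rw [h4, sq w, Complex.mul_re]
  linear_combination (-1 / 2 : ℝ) * h5

/-- the mean squares of the characters -/
theorem int_S_sq (k : ℕ) : Ltr 2 (-1) (fun t => (S ℝ k).eval t ^ 2) = 1 := by
  unfold Ltr Lth
  have e : (fun θ : ℝ => (S ℝ k).eval (2 * Real.cos θ) ^ 2 *
      (1 + -1 * Real.cos ((2 : ℕ) * θ))) = fun θ => 1 - Real.cos (((2 * (k + 1) : ℤ) : ℝ) * θ) := by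
    funext θ
    have h1 := S_two_mul_real_cos θ (k : ℤ)
    have h2 : Real.cos (((2 : ℕ) : ℝ) * θ) = 1 - 2 * Real.sin θ ^ 2 := by
      push_cast
      rw [Real.cos_two_mul, Real.cos_sq']
      ring
    have h3 : Real.cos (((2 * (k + 1) : ℤ) : ℝ) * θ) =
        1 - 2 * Real.sin (((k : ℤ) + 1) * θ) ^ 2 := by
      have e1 : ((2 * (k + 1) : ℤ) : ℝ) * θ = 2 * (((k : ℤ) + 1) * θ) := by
        push_cast
        ring
      rw [e1, Real.cos_two_mul, Real.cos_sq']
      ring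
    rw [h2, h3, ← h1]
    ring
  rw [e, intervalIntegral.integral_sub (by simp)
    (Continuous.intervalIntegrable (by fun_prop) _ _), int_cos, if_neg (by omega)]
  have hpi := Real.pi_pos.ne'
  simp [hpi]

/-- **The orders vanish.** -/
theorem orders_zero (hα : ∀ v, ‖α v‖ = 1) {m : ℕ → ℤ}
    (hm : ∀ k : ℕ, D (fun v => (S ℝ k).eval (2 * (α v).re)) (m k)) (hmz : ∀ k : ℕ, 1 ≤ k → m k = 0)
    (hlaw : ∀ f : ℝ → ℝ, Continuous f → D (fun v => f (2 * (α v).re)) (Ltr 2 (-1) f))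
    {k : ℕ} (hk : 1 ≤ k) {τ : ℝ} {Λ : ℂ → ℂ} (hΛ : Cont α k τ Λ) :
    meromorphicOrderAt Λ (1 + τ * I) = ((0 : ℤ) : WithTop ℤ) := by
  obtain ⟨n, h1, h2⟩ := order_LS hα hΛ
  have h3 : n = 0 := by
    by_cases hτ : τ = 0
    · subst hτ
      have h4 : (-(n : ℝ)) = m k := h2.unique (hm k) fun v => by rw [hh_zero, mul_one]
      rw [hmz k hk] at h4
      have : (n : ℝ) = 0 := by
        push_cast at h4
        linarith
      exact_mod_cast this
    · have h4 := hlaw (fun t => (S ℝ k).eval t ^ 2) (by fun_prop)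
      rw [int_S_sq] at h4
      have h5 := hh_sq (K := K) hτ
      -- Cauchy-Schwarz
      have h6 := (mnD K).hsAdd h4 ((mnD K).hsAdd ((mnD K).hsMul h2 (4 * n))
        ((mnD K).hsMul h5 (4 * n ^ 2)))
      have h7 := Hs.le (mnD K) (mnD K).hsZero h6 fun v => by
        have e : (S ℝ k).eval (2 * (α v).re) ^ 2 +
            (4 * (n : ℝ) * ((S ℝ k).eval (2 * (α v).re) * hh τ v) + 4 * (n : ℝ) ^ 2 * hh τ v ^ 2) =
            ((S ℝ k).eval (2 * (α v).re) + 2 * n * hh τ v) ^ 2 := by ring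
        rw [e]
        exact sq_nonneg _
      have h8 : (n : ℝ) ^ 2 < 1 := by nlinarith
      have h9 : n ^ 2 < 1 := by exact_mod_cast h8
      nlinarith [sq_nonneg n, sq_abs n, abs_nonneg n]
  rw [h1, h3]

/-- **The natural means of the characters.** -/
theorem nat_mean (hα : ∀ v, ‖α v‖ = 1) {k : ℕ}
    (h : ∀ τ : ℝ, ∃ Λ, Cont α k τ Λ ∧
      meromorphicOrderAt Λ (1 + τ * I) = ((0 : ℤ) : WithTop ℤ)) :
    Hs atTop (EN K) (fun v => (S ℝ k).eval (2 * (α v).re)) 0 := by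
  have h4 := taub (K := K) (b := k + 1) (α := fun v j => α v ^ ((k : ℤ) - 2 * (j : ℕ)))
    (fun v j => by rw [norm_zpow, hα, one_zpow]) (L := LS α k) (fun s _ => by
    unfold LS
    refine tprod_congr fun v => ?_
    rw [Finset.prod_range]) (fun τ => by
    obtain ⟨Λ, ⟨h5, h6⟩, h7⟩ := h τ
    obtain ⟨g, h10, h11, h12⟩ := (meromorphicOrderAt_eq_int_iff h5).1 h7
    refine ⟨g, h10, h11, ?_⟩
    rw [eventually_nhdsWithin_iff] at h12
    filter_upwards [h12, h6] with s h13 h14 h15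
    have hne : s ≠ 1 + τ * I := by
      intro h
      rw [h] at h15
      simp at h15
    have h16 := h13 hne
    rw [zpow_zero, one_smul] at h16
    rw [← h16, h14 h15])
  have h5 := mn_tendsto h4
  have h6 := (Complex.continuous_re.tendsto _).comp h5
  rw [Complex.zero_re] at h6
  refine ⟨bd_S hα k, h6.congr fun n => ?_⟩
  simp only [Function.comp]
  unfold EN
  have e : ((Nat.primeCounting n : ℕ) : ℂ) = (((Nat.primeCounting n : ℕ) : ℝ) : ℂ) := by
    push_cast
    rfl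
  rw [e, Complex.div_ofReal_re, Complex.re_sum]
  congr 1
  refine Finset.sum_congr rfl fun v _ => ?_
  have h7 := chs_eq (hα v) k
  unfold chs at h7
  rw [← Finset.sum_range (fun j => α v ^ ((k : ℤ) - 2 * (j : ℕ)))]
  rw [h7, Complex.ofReal_re]

/-- **The natural law.** -/
theorem nat_law (hα : ∀ v, ‖α v‖ = 1)
    (h : ∀ k : ℕ, 1 ≤ k → Hs atTop (EN K) (fun v => (S ℝ k).eval (2 * (α v).re)) 0)
    (f : ℝ → ℝ) (hf : Continuous f) :
    Hs atTop (EN K) (fun v => f (2 * (α v).re)) (Ltr 2 (-1) f) := by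
  refine law_of_moments (mnN K) (fun v => mem_Icc_of_norm (hα v)) (lf_Ltr 2 (-1)) (fun k => ?_) f hf
  rw [mom_Ltr two_pos]
  have key : ∀ k : ℕ, Hs atTop (EN K) (fun v => (C ℝ (k : ℤ)).eval (2 * (α v).re))
      (if (k : ℤ) = 0 then 2 else if (k : ℤ) = (2 : ℕ) ∨ (k : ℤ) = -(2 : ℕ) then -1 else 0) := by
    intro k
    match k with
    | 0 =>
      refine ((mnN K).hsMul (mnN K).hsOne 2).congr (fun v => ?_) (by simp)
      simp
    | 1 =>
      refine (h 1 le_rfl).congr (fun v => ?_) (by norm_num)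
      have e : ((1 : ℕ) : ℤ) = 1 := rfl
      rw [e, S_one, C_one]
    | 2 =>
      refine ((mnN K).hsAdd (h 2 (by norm_num)) ((mnN K).hsMul (mnN K).hsOne (-1))).congr
        (fun v => ?_) (by norm_num)
      rw [C_eq_S]
      simp
      ring
    | k + 3 =>
      refine ((mnN K).hsAdd (h (k + 3) (by omega))
        ((mnN K).hsMul (h (k + 1) (by omega)) (-1))).congr (fun v => ?_) ?_
      · rw [C_eq_S]
        have e : ((k + 3 : ℕ) : ℤ) - 2 = ((k + 1 : ℕ) : ℤ) := by push_cast; ring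
        rw [e]
        ring
      · rw [if_neg (by omega), if_neg (by omega)]
        norm_num
  have h1 := key k.natAbs
  refine h1.congr (fun v => by rw [C_natAbs]) ?_
  by_cases hk : k = 0
  · rw [hk]
    simp
  · rw [if_neg hk, if_neg (by omega)]
    by_cases h2 : k = (2 : ℕ) ∨ k = -(2 : ℕ)
    · rw [if_pos h2, if_pos (by omega)]
    · rw [if_neg h2, if_neg (by omega)]

end

end Pool.Agent.Y798.RG
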