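import Pool.Agent.Y798.RG.Z2
import Pool.Agent.Y798.RG.Law
import Pool.Agent.TH553.ST.Ext2

/-! Symmetric power `L`-functions of elements of the unit circle attached to the primes. -/

set_option autoImplicit false

namespace Pool.Agent.Y798.RG

open Complex Filter Topology ComplexConjugate NumberField IsDedekindDomain
  Polynomial.Chebyshev Pool.Agent.W540.BE Pool.Agent.W353.SP Pool.Agent.TH553.ST
  Pool.Agent.TH553.RS

section

/-- the character of the `k`-th symmetric power -/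
noncomputable def chs (z : ℂ) (k : ℕ) : ℂ := ∑ j ∈ Finset.range (k + 1), z ^ ((k : ℤ) - 2 * j)

variable {z : ℂ}

theorem ne_zero_of_norm (hz : ‖z‖ = 1) : z ≠ 0 := by
  rintro rfl
  simp at hz

theorem inv_of_norm (hz : ‖z‖ = 1) : z⁻¹ = conj z := by
  rw [Complex.inv_def, Complex.normSq_eq_norm_sq, hz]
  simp

theorem add_inv (hz : ‖z‖ = 1) : z + z⁻¹ = ((2 * z.re : ℝ) : ℂ) := by
  rw [inv_of_norm hz, Complex.add_conj]

theorem chs_rec (hz : ‖z‖ = 1) (k : ℕ) :
    chs z (k + 2) = (z + z⁻¹) * chs z (k + 1) - chs z k := by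
  have h0 := ne_zero_of_norm hz
  have e1 : z * chs z (k + 1) = ∑ j ∈ Finset.range (k + 2), z ^ (((k + 2 : ℕ) : ℤ) - 2 * j) := by
    unfold chs
    rw [Finset.mul_sum]
    refine Finset.sum_congr rfl fun j _ => ?_
    rw [← zpow_one_add₀ h0]
    congr 1
    push_cast
    ring
  have e2 : z⁻¹ * chs z (k + 1) = ∑ j ∈ Finset.range (k + 2), z ^ ((k : ℤ) - 2 * j) := by
    unfold chs
    rw [Finset.mul_sum]
    refine Finset.sum_congr rfl fun j _ => ?_
    rw [← zpow_neg_one, ← zpow_add₀ h0]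
    congr 1
    push_cast
    ring
  have e3 : chs z (k + 2) = (∑ j ∈ Finset.range (k + 2), z ^ (((k + 2 : ℕ) : ℤ) - 2 * j)) +
      z ^ (-(k : ℤ) - 2) := by
    unfold chs
    rw [Finset.sum_range_succ]
    congr 2
    push_cast
    ring
  have e4 : ∑ j ∈ Finset.range (k + 2), z ^ ((k : ℤ) - 2 * j) = chs z k + z ^ (-(k : ℤ) - 2) := by
    rw [Finset.sum_range_succ]
    congr 2
    push_cast
    ring
  rw [add_mul, e1, e2, e3, e4]
  ring

theorem chs_eq (hz : ‖z‖ = 1) (k : ℕ) : chs z k = (((S ℝ k).eval (2 * z.re) : ℝ) : ℂ) := by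
  have key : ∀ k : ℕ, chs z k = (((S ℝ k).eval (2 * z.re) : ℝ) : ℂ) ∧
      chs z (k + 1) = (((S ℝ ((k + 1 : ℕ) : ℤ)).eval (2 * z.re) : ℝ) : ℂ) := by
    intro k
    induction k with
    | zero =>
      constructor
      · simp [chs]
      · have h1 := add_inv hz
        have e : ((0 + 1 : ℕ) : ℤ) = 1 := rfl
        rw [e, S_one, Polynomial.eval_X, ← h1]
        simp [chs, Finset.sum_range_succ]
    | succ k ih =>
      refine ⟨ih.2, ?_⟩
      have e : (((k + 1 + 1 : ℕ) : ℤ)) = (k : ℤ) + 2 := by push_cast; ring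
      have e' : (((k + 1 : ℕ) : ℤ)) = (k : ℤ) + 1 := by push_cast; ring
      rw [chs_rec hz, ih.1, ih.2, add_inv hz, e, S_add_two, e']
      simp only [Polynomial.eval_sub, Polynomial.eval_mul, Polynomial.eval_X]
      push_cast
      ring
  exact (key k).1

theorem C_eval (hz : ‖z‖ = 1) (k : ℤ) : (C ℝ k).eval (2 * z.re) = 2 * (z ^ k).re := by
  have h1 : z = Complex.exp (z.arg * I) := by
    conv_lhs => rw [← Complex.norm_mul_exp_arg_mul_I z, hz, Complex.ofReal_one, one_mul]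
  have h2 : z.re = Real.cos z.arg := by
    conv_lhs => rw [h1, Complex.exp_ofReal_mul_I_re]
  have h3 : z ^ k = Complex.exp ((k * z.arg : ℝ) * I) := by
    conv_lhs => rw [h1, ← Complex.exp_int_mul]
    congr 1
    push_cast
    ring
  rw [h2, C_two_mul_real_cos, h3, Complex.exp_ofReal_mul_I_re]

theorem mem_Icc_of_norm (hz : ‖z‖ = 1) : 2 * z.re ∈ Set.Icc (-2 : ℝ) 2 := by
  have h1 := Complex.abs_re_le_norm z
  rw [hz, abs_le] at h1
  exact ⟨by linarith, by linarith⟩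

theorem C_eq_S (k : ℤ) (t : ℝ) : (C ℝ k).eval t = (S ℝ k).eval t - (S ℝ (k - 2)).eval t := by
  rw [C_eq_S_sub_X_mul_S, S_sub_two]
  simp only [Polynomial.eval_sub, Polynomial.eval_mul, Polynomial.eval_X, Polynomial.eval_ofNat]
  ring

end

section
variable {K : Type} [Field K] [NumberField K] {α : HeightOneSpectrum (𝓞 K) → ℂ}

/-- the symmetric power `L`-function -/
noncomputable def LS (α : HeightOneSpectrum (𝓞 K) → ℂ) (k : ℕ) (s : ℂ) : ℂ :=
  ∏' v, (∏ j ∈ Finset.range (k + 1),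
    (1 - α v ^ ((k : ℤ) - 2 * j) * ((nm K v : ℕ) : ℂ) ^ (-s)))⁻¹

/-- the height -/
noncomputable def hh (τ : ℝ) (v : HeightOneSpectrum (𝓞 K)) : ℝ :=
  (((nm K v : ℕ) : ℂ) ^ (-(τ * I : ℂ))).re

/-- meromorphic continuation -/
def Cont (α : HeightOneSpectrum (𝓞 K) → ℂ) (k : ℕ) (τ : ℝ) (Λ : ℂ → ℂ) : Prop :=
  MeromorphicAt Λ (1 + τ * I) ∧
    ∀ᶠ s in 𝓝 ((1 : ℂ) + τ * I), (1 : ℝ) < s.re → Λ s = LS α k s

/-- Dirichlet means -/
abbrev D (φ : HeightOneSpectrum (𝓞 K) → ℝ) (m : ℝ) : Prop := Hs (𝓝[>] 0) (ED K) φ m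

theorem bd_S (hα : ∀ v, ‖α v‖ = 1) (k : ℤ) :
    Pool.Agent.W353.SP.Bd fun v => (S ℝ k).eval (2 * (α v).re) :=
  bd_comp (f := fun t => (S ℝ k).eval t) (fun v => mem_Icc_of_norm (hα v)) (by fun_prop)

theorem bd_hh (τ : ℝ) : Pool.Agent.W353.SP.Bd (hh (K := K) τ) := by
  refine ⟨1, fun v => ?_⟩
  unfold hh
  refine (Complex.abs_re_le_norm _).trans ?_
  rw [norm_cpow_I (by have := two_le_nm v; omega) τ]

/-- **Orders and means.** -/
theorem order_LS (hα : ∀ v, ‖α v‖ = 1) {k : ℕ} {τ : ℝ} {Λ : ℂ → ℂ} (h : Cont α k τ Λ) :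
    ∃ m : ℤ, meromorphicOrderAt Λ (1 + τ * I) = m ∧
      D (fun v => (S ℝ k).eval (2 * (α v).re) * hh τ v) (-(m : ℝ)) := by
  set β : HeightOneSpectrum (𝓞 K) → Fin (k + 1) → ℂ := fun v j => α v ^ ((k : ℤ) - 2 * j) with hβ
  have h1 : ∀ v j, ‖β v j‖ = 1 := fun v j => by
    rw [hβ]
    simp only
    rw [norm_zpow, hα, one_zpow]
  have h2 : ∀ v, ∑ j, β v j = chs (α v) k := fun v => by
    unfold chs
    rw [Finset.sum_range]
  set B : HeightOneSpectrum (𝓞 K) → Polynomial ℂ := fun v =>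
    ∏ j, (1 - Polynomial.C (β v j) * Polynomial.X) with hB
  have hBe : ∀ v z, (B v).eval z = ∏ j, (1 - β v j * z) := by
    intro v z
    rw [hB]
    simp [Polynomial.eval_prod]
  have h3 := size_unit (sysF K) β (Filter.Eventually.of_forall h1)
    (t := fun v => chs (α v) k) (C := (k + 1 : ℝ)) (fun v => by
      unfold chs
      refine (norm_sum_le _ _).trans ?_
      have h4 := Finset.sum_le_card_nsmul (Finset.range (k + 1))
        (fun j => ‖α v ^ ((k : ℤ) - 2 * j)‖) 1 fun j _ => by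
          rw [norm_zpow, hα, one_zpow]
      rw [Finset.card_range, nsmul_eq_mul, mul_one] at h4
      exact_mod_cast h4)
    (Filter.Eventually.of_forall h2) τ B (Filter.Eventually.of_forall hBe)
    (fun v => by
      rw [hBe, Finset.prod_ne_zero_iff]
      intro j _ h4
      have h5 : ‖β v j * ((nm K v : ℕ) : ℂ) ^ (-(1 + τ * I : ℂ))‖ = 1 := by
        have : β v j * ((nm K v : ℕ) : ℂ) ^ (-(1 + τ * I : ℂ)) = 1 := by linear_combination -h4
        rw [this, norm_one]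
      rw [norm_mul, h1, one_mul] at h5
      have h6 := cpow_le_half normSys v (s := 1 + τ * I) (by simp)
      linarith) (LS α k)
    (fun s _ => by
      unfold LS
      refine tprod_congr fun v => ?_
      rw [hBe, Finset.prod_range])
  obtain ⟨m, h4, h5⟩ := order_unit h3.1 h.1 h.2
  refine ⟨m, h4, (bd_S hα k).mul (bd_hh τ), ?_⟩
  have h6 := h3.2.add h5
  simp only [sub_add_cancel, zero_add] at h6
  refine h6.congr fun ε => ?_
  unfold ED qt
  congr 2
  funext v
  rw [chs_eq (hα v), Complex.re_ofReal_mul]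
  rfl

theorem hh_zero (v : HeightOneSpectrum (𝓞 K)) : hh 0 v = 1 := by
  unfold hh
  rw [Complex.ofReal_zero, zero_mul, neg_zero, Complex.cpow_zero, Complex.one_re]

/-- the moments are integers -/
theorem exists_mom (hα : ∀ v, ‖α v‖ = 1) (hc : ∀ k : ℕ, 1 ≤ k → ∃ Λ, Cont α k 0 Λ) :
    ∃ m : ℕ → ℤ, m 0 = 1 ∧ (∀ k : ℕ, D (fun v => (S ℝ k).eval (2 * (α v).re)) (m k)) ∧
      ∀ k : ℕ, 1 ≤ k → ∀ Λ, Cont α k 0 Λ → meromorphicOrderAt Λ 1 = ((-m k : ℤ) : WithTop ℤ) := by
  have h1 : ∀ k : ℕ, ∃ m : ℤ, (k = 0 → m = 1) ∧ D (fun v => (S ℝ k).eval (2 * (α v).re)) (m : ℝ) := by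
    intro k
    rcases Nat.eq_zero_or_pos k with rfl | hk
    · refine ⟨1, fun _ => rfl, ((mnD K).hsOne).congr (fun v => ?_) (by norm_num)⟩
      simp
    · obtain ⟨Λ, hΛ⟩ := hc k hk
      obtain ⟨m, -, h2⟩ := order_LS hα hΛ
      refine ⟨-m, fun h => absurd h hk.ne', h2.congr (fun v => ?_) (by push_cast; rfl)⟩
      rw [hh_zero, mul_one]
  choose m hm0 hm using h1
  refine ⟨m, hm0 0 rfl, hm, fun k hk Λ hΛ => ?_⟩
  obtain ⟨n, h2, h3⟩ := order_LS hα hΛ
  have h4 : (-(n : ℝ)) = m k := h3.unique (hm k) fun v => by rw [hh_zero, mul_one]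
  have h5 : n = -m k := by
    have : -n = m k := by exact_mod_cast h4
    omega
  rw [Complex.ofReal_zero, zero_mul, add_zero] at h2
  rw [h2, h5]

/-- the moments of the powers -/
theorem exists_c (hα : ∀ v, ‖α v‖ = 1) {m : ℕ → ℤ} (hm0 : m 0 = 1)
    (hm : ∀ k : ℕ, D (fun v => (S ℝ k).eval (2 * (α v).re)) (m k)) :
    ∃ c : ℤ → ℤ, (∀ k, D (fun v => (C ℝ k).eval (2 * (α v).re)) (c k)) ∧ c 0 = 2 ∧
      c 1 = m 1 ∧ ∀ k : ℕ, c (k + 2 : ℕ) = m (k + 2) - m k := by
  have h0 : D (fun v => (C ℝ 0).eval (2 * (α v).re)) ((2 : ℤ) : ℝ) := by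
    refine ((mnD K).hsMul (mnD K).hsOne 2).congr (fun v => ?_) (by norm_num)
    simp
  have h1 : D (fun v => (C ℝ 1).eval (2 * (α v).re)) ((m 1 : ℤ) : ℝ) := by
    refine (hm 1).congr (fun v => ?_) rfl
    have e : ((1 : ℕ) : ℤ) = 1 := rfl
    rw [e, S_one, C_one]
  have h2 : ∀ k : ℕ, D (fun v => (C ℝ ((k + 2 : ℕ) : ℤ)).eval (2 * (α v).re))
      ((m (k + 2) - m k : ℤ) : ℝ) := by
    intro k
    refine ((mnD K).hsAdd (hm (k + 2)) ((mnD K).hsMul (hm k) (-1))).congr (fun v => ?_)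
      (by push_cast; ring)
    rw [C_eq_S]
    have e : ((k + 2 : ℕ) : ℤ) - 2 = k := by push_cast; ring
    rw [e]
    ring
  have h3 : ∀ k : ℕ, ∃ n : ℤ, D (fun v => (C ℝ (k : ℤ)).eval (2 * (α v).re)) (n : ℝ) := by
    intro k
    match k with
    | 0 => exact ⟨_, h0⟩
    | 1 => exact ⟨_, h1⟩
    | k + 2 => exact ⟨_, h2 k⟩
  choose n hn using h3
  refine ⟨fun k => n k.natAbs, fun k => ?_, ?_, ?_, fun k => ?_⟩
  · refine (hn k.natAbs).congr (fun v => ?_) rfl
    rw [C_natAbs]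
  · exact_mod_cast (hn 0).unique h0 fun v => rfl
  · exact_mod_cast (hn 1).unique h1 fun v => rfl
  · exact_mod_cast (hn (k + 2)).unique (h2 k) fun v => rfl

/-- the Gram matrix -/
theorem exists_gr (hα : ∀ v, ‖α v‖ = 1) {c : ℤ → ℤ}
    (hc : ∀ k, D (fun v => (C ℝ k).eval (2 * (α v).re)) (c k)) (h0 : c 0 = 2) :
    ∃ (H : Type) (_ : NormedAddCommGroup H) (_ : InnerProductSpace ℝ H) (_ : CompleteSpace H)
      (v : ℤ → H), Gr c v := by
  have hsym : ∀ k, c (-k) = c k := by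
    intro k
    exact_mod_cast (hc (-k)).unique (hc k) fun v => by rw [C_neg]
  obtain ⟨H, i1, i2, i3, v, hv⟩ := exists_gram (X := ℤ) (fun a b => (c (a - b) : ℝ))
    (fun a b => by
      rw [← hsym (b - a)]
      congr 2
      ring) (fun x => by
      have h1 : D (fun v => ∑ a ∈ x.support, ∑ b ∈ x.support,
          (x a * x b) * (C ℝ (a - b)).eval (2 * (α v).re))
          (∑ a ∈ x.support, ∑ b ∈ x.support, (x a * x b) * (c (a - b) : ℝ)) :=
        (mnD K).hsSum _ fun a _ => (mnD K).hsSum _ fun b _ => (mnD K).hsMul (hc (a - b)) _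
      have h2 := Hs.le (mnD K) (mnD K).hsZero h1 fun v => by
        have hz := ne_zero_of_norm (hα v)
        have e1 : ∑ a ∈ x.support, ∑ b ∈ x.support,
            (x a * x b) * (C ℝ (a - b)).eval (2 * (α v).re) =
            2 * ((∑ a ∈ x.support, (x a : ℂ) * α v ^ a) *
              conj (∑ b ∈ x.support, (x b : ℂ) * α v ^ b)).re := by
          rw [map_sum, Finset.sum_mul_sum, Complex.re_sum, Finset.mul_sum]
          refine Finset.sum_congr rfl fun a _ => ?_
          rw [Complex.re_sum, Finset.mul_sum]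
          refine Finset.sum_congr rfl fun b _ => ?_
          rw [C_eval (hα v), map_mul, Complex.conj_ofReal, map_zpow₀, ← inv_of_norm (hα v)]
          have e2 : (x a : ℂ) * α v ^ a * ((x b : ℂ) * (α v)⁻¹ ^ b) =
              ((x a * x b : ℝ) : ℂ) * α v ^ (a - b) := by
            rw [zpow_sub₀ hz, inv_zpow]
            push_cast
            field_simp
          rw [e2, Complex.re_ofReal_mul]
          ring
        rw [e1, Complex.mul_conj, Complex.ofReal_re]
        have := Complex.normSq_nonneg (∑ a ∈ x.support, (x a : ℂ) * α v ^ a)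
        positivity
      exact h2)
  exact ⟨H, i1, i2, i3, v, ⟨hv, h0⟩⟩

/-- finite type -/
def Fin' (α : HeightOneSpectrum (𝓞 K) → ℂ) : Prop :=
  ∃ N : ℕ, 0 < N ∧ D (fun v => ‖α v ^ N - 1‖ ^ 2) 0

/-- **The shapes of the moments.** -/
theorem shapes (hα : ∀ v, ‖α v‖ = 1) {c : ℤ → ℤ}
    (hc : ∀ k, D (fun v => (C ℝ k).eval (2 * (α v).re)) (c k)) (h0 : c 0 = 2) :
    Fin' α ∨ (∀ k, c k = if k = 0 then 2 else 0) ∨
    (∃ m : ℤ, 0 < m ∧ ∃ ε : ℤ, (ε = 1 ∨ ε = -1) ∧
      ∀ k, c k = if k = 0 then 2 else if k = m ∨ k = -m then ε else 0) ∨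
    (∃ m : ℤ, 0 < m ∧ ∃ ε : ℤ, (ε = 1 ∨ ε = -1) ∧
      ∀ k, c k = (if k = 0 then 1 else 0) + (if m ∣ k then ε ^ (k / m).natAbs else 0)) := by
  obtain ⟨H, _, _, _, v, hv⟩ := exists_gr hα hc h0
  by_cases hb : ∀ m : ℤ, m ≠ 0 → |c m| ≤ 1
  · right
    by_cases hfin : {k | c k ≠ 0}.Finite
    · by_cases hne : ∃ k : ℤ, k ≠ 0 ∧ c k ≠ 0
      · exact Or.inr (Or.inl (hv.finite hb hfin hne))
      · left
        push Not at hne
        intro k
        split_ifs with hk
        · rw [hk, h0]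
        · exact hne k hk
    · exact Or.inr (Or.inr (hv.infinite hb hfin))
  · left
    push Not at hb
    obtain ⟨m, hm, hcm⟩ := hb
    -- the value is `±2`
    have h1 : |(c m : ℝ)| ≤ 2 := by
      have h2 := abs_real_inner_le_norm (v m) (v 0)
      rw [hv.inn, sub_zero] at h2
      have h3 : ‖v m‖ * ‖v 0‖ = 2 := by
        have e1 := hv.norm_sq m
        have e2 := hv.norm_sq 0
        rw [real_inner_self_eq_norm_sq] at e1 e2
        have e3 : (‖v m‖ * ‖v 0‖) ^ 2 = 2 ^ 2 := by rw [mul_pow, e1, e2]; norm_num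
        exact (pow_left_inj₀ (by positivity) (by norm_num) two_ne_zero).1 e3
      rwa [h3] at h2
    have h2 : |c m| ≤ 2 := by exact_mod_cast h1
    have h3 : c m = 2 ∨ c m = -2 := by
      rw [abs_le] at h2
      rw [lt_abs] at hcm
      omega
    have h4 : c (2 * m) = 2 := by
      have key : ∀ a b : ℤ, a - b = m → ∃ s : ℝ, (s = 1 ∨ s = -1) ∧
          (c m : ℝ) = 2 * s ∧ v a = s • v b := by
        intro a b hab
        rcases h3 with h5 | h5
        · refine ⟨1, Or.inl rfl, by rw [h5]; norm_num, ?_⟩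
          rw [one_smul]
          refine eq_of_inner_two (hv.norm_sq a) (hv.norm_sq b) ?_
          rw [hv.inn, hab, h5]
          norm_num
        · refine ⟨-1, Or.inr rfl, by rw [h5]; norm_num, ?_⟩
          refine eq_of_inner_two (hv.norm_sq a) ?_ ?_
          · rw [real_inner_smul_left, real_inner_smul_right, hv.norm_sq]
            norm_num
          · rw [real_inner_smul_right, hv.inn, hab, h5]
            norm_num
      obtain ⟨s, hs, hs1, hs2⟩ := key (2 * m) m (by ring)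
      obtain ⟨s', hs', hs1', hs2'⟩ := key m 0 (by ring)
      have hss : s = s' := by linarith
      have h5 := hv.inn (2 * m) 0
      rw [hs2, hs2', ← hss, smul_smul, real_inner_smul_left, hv.norm_sq, sub_zero] at h5
      have h6 : s * s = 1 := by rcases hs with h | h <;> rw [h] <;> norm_num
      rw [h6, one_mul] at h5
      exact_mod_cast h5.symm
    refine ⟨(2 * m).natAbs, by omega, ?_⟩
    refine ((mnD K).hsAdd ((mnD K).hsMul (mnD K).hsOne 2)
      ((mnD K).hsMul (hc (2 * m)) (-1))).congr (fun p => ?_) (by rw [h4]; norm_num)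
    rw [← C_natAbs, C_eval (hα p), zpow_natCast]
    set w : ℂ := α p ^ (2 * m).natAbs with hw
    have hw1 : ‖w‖ = 1 := by rw [hw, norm_pow, hα, one_pow]
    rw [Complex.norm_def, Real.sq_sqrt (Complex.normSq_nonneg _)]
    have h5 : w.re * w.re + w.im * w.im = 1 := by
      have h6 : Complex.normSq w = 1 := by rw [Complex.normSq_eq_norm_sq, hw1]; norm_num
      rwa [Complex.normSq_apply] at h6
    rw [Complex.normSq_apply]
    simp only [Complex.sub_re, Complex.sub_im, Complex.one_re, Complex.one_im]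
    linear_combination -h5

end

end Pool.Agent.Y798.RG
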