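import Pool.Agent.Y798.RG.Gram

/-! Integral positive definite sequences with the value `2` at `0`. -/

set_option autoImplicit false

namespace Pool.Agent.Y798.RG

open Filter Topology

section
variable {H : Type} [NormedAddCommGroup H] [InnerProductSpace ℝ H] [CompleteSpace H]

/-- the Gram matrix of the vectors `v a` is `c (a - b)` -/
structure Gr (c : ℤ → ℤ) (v : ℤ → H) : Prop where
  inn : ∀ a b, inner ℝ (v a) (v b) = (c (a - b) : ℝ)
  zero : c 0 = 2

variable {c : ℤ → ℤ} {v : ℤ → H}

omit [CompleteSpace H] in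
theorem Gr.symm (h : Gr c v) (k : ℤ) : c (-k) = c k := by
  have h1 := h.inn 0 k
  have h2 := h.inn k 0
  rw [real_inner_comm, h2, sub_zero, zero_sub] at h1
  exact_mod_cast h1.symm

omit [CompleteSpace H] in
theorem Gr.norm_sq (h : Gr c v) (a : ℤ) : inner ℝ (v a) (v a) = (2 : ℝ) := by
  rw [h.inn, sub_self, h.zero]
  norm_num

omit [CompleteSpace H] in
theorem Gr.norm_le (h : Gr c v) (a : ℤ) : ‖v a‖ ≤ 2 := by
  have h1 := h.norm_sq a
  rw [real_inner_self_eq_norm_sq] at h1
  have h0 := norm_nonneg (v a)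
  nlinarith

/-- a finite integral combination of the vectors -/
noncomputable def W (v : ℤ → H) (s : Finset ℕ) (x y : ℕ → ℤ) (a : ℤ) : H :=
  ∑ j ∈ s, (x j : ℝ) • v (a + y j)

/-- **Weak limits of integral combinations and of their translates.** -/
theorem Gr.shift_lim (h : Gr c v) {ι : Type} (U : Ultrafilter ι) (s : ι → Finset ℕ)
    (x y : ι → ℕ → ℤ) {C : ℝ} (hC : ∀ i a, ‖W v (s i) (x i) (y i) a‖ ≤ C) :
    ∃ (e : ℤ → H) (g n : ℤ → ℤ), (∀ a b, inner ℝ (v a) (e b) = (g (a - b) : ℝ)) ∧
      (∀ a b, inner ℝ (e a) (e b) = (n (a - b) : ℝ)) ∧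
      ∀ a z, Tendsto (fun i => inner ℝ z (W v (s i) (x i) (y i) a)) U (𝓝 (inner ℝ z (e a))) := by
  choose e he using fun a => weak_lim U (fun i => W v (s i) (x i) (y i) a) (fun i => hC i a)
  -- the inner products with the vectors
  have h1 : ∀ a b i, inner ℝ (v a) (W v (s i) (x i) (y i) b) =
      ((∑ j ∈ s i, x i j * c (a - b - y i j) : ℤ) : ℝ) := by
    intro a b i
    unfold W
    rw [inner_sum]
    push_cast
    refine Finset.sum_congr rfl fun j _ => ?_
    rw [real_inner_smul_right, h.inn]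
    congr 3
    ring
  have h2 : ∀ d, ∃ m : ℤ, inner ℝ (v d) (e 0) = (m : ℝ) := fun d => by
    have h3 := he 0 (v d)
    simp only [h1] at h3
    exact int_lim h3
  choose g hg using h2
  have hg' : ∀ a b, inner ℝ (v a) (e b) = (g (a - b) : ℝ) := by
    intro a b
    rw [← hg]
    refine tendsto_nhds_unique (he b (v a)) ((he 0 (v (a - b))).congr fun i => ?_)
    rw [h1, h1, sub_zero]
  have h4 : ∀ a b i, inner ℝ (e a) (W v (s i) (x i) (y i) b) =
      ((∑ j ∈ s i, x i j * g (y i j - (a - b)) : ℤ) : ℝ) := by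
    intro a b i
    unfold W
    rw [inner_sum]
    push_cast
    refine Finset.sum_congr rfl fun j _ => ?_
    rw [real_inner_smul_right, real_inner_comm, hg']
    congr 3
    ring
  have h5 : ∀ d, ∃ m : ℤ, inner ℝ (e d) (e 0) = (m : ℝ) := fun d => by
    have h3 := he 0 (e d)
    simp only [h4] at h3
    exact int_lim h3
  choose n hn using h5
  refine ⟨e, g, n, hg', fun a b => ?_, he⟩
  rw [← hn]
  refine tendsto_nhds_unique (he b (e a)) ((he 0 (e (a - b))).congr fun i => ?_)
  rw [h4, h4, sub_zero]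

omit [CompleteSpace H] in
/-- no period -/
theorem Gr.no_period (h : Gr c v) (hb : ∀ m : ℤ, m ≠ 0 → |c m| ≤ 1) {T : ℤ} (hT : T ≠ 0) :
    v T ≠ v 0 := by
  intro hcon
  have h1 := h.inn T 0
  rw [hcon, h.norm_sq, sub_zero] at h1
  have h2 : c T = 2 := by exact_mod_cast h1.symm
  have h3 := hb T hT
  rw [h2] at h3
  norm_num at h3

theorem sq_one {t : ℤ} (h : |t| ≤ 1) (h0 : t ≠ 0) : t = 1 ∨ t = -1 := by
  rw [abs_le] at h
  omega

/-- the case of infinite support -/
theorem Gr.infinite (h : Gr c v) (hb : ∀ m : ℤ, m ≠ 0 → |c m| ≤ 1)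
    (hinf : {k | c k ≠ 0}.Infinite) :
    ∃ m : ℤ, 0 < m ∧ ∃ ε : ℤ, (ε = 1 ∨ ε = -1) ∧
      ∀ k, c k = (if k = 0 then 1 else 0) + (if m ∣ k then ε ^ (k / m).natAbs else 0) := by
  classical
  set S : Set ℤ := {k | c k ≠ 0 ∧ k ≠ 0} with hSd
  have hS : S.Infinite := by
    have h1 : {k | c k ≠ 0} ⊆ S ∪ {0} := by
      intro k hk
      by_cases h0 : k = 0
      · exact Or.inr h0
      · exact Or.inl ⟨hk, h0⟩
    intro hfin
    exact hinf ((hfin.union (Set.finite_singleton 0)).subset h1)
  have hne : (cofinite ⊓ 𝓟 S : Filter ℤ).NeBot := by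
    rw [cofinite_inf_principal_neBot_iff]
    exact hS
  obtain ⟨U, hU⟩ : ∃ U : Ultrafilter ℤ, (U : Filter ℤ) ≤ cofinite ⊓ 𝓟 S := Ultrafilter.exists_le _
  have hUc : (U : Filter ℤ) ≤ cofinite := hU.trans inf_le_left
  have hUS : ∀ᶠ k in (U : Filter ℤ), k ∈ S := (hU.trans inf_le_right) (mem_principal_self S)
  have hinfU : ∀ {p : ℤ → Prop}, (∀ᶠ k in (U : Filter ℤ), p k) → {k | p k}.Infinite := by
    intro p hp hfin
    have h1 : ∀ᶠ k in (U : Filter ℤ), ¬ p k := hUc (by
      rw [mem_cofinite]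
      refine hfin.subset fun k hk => ?_
      simpa using hk)
    obtain ⟨k, h2, h3⟩ := (hp.and h1).exists
    exact h3 h2
  have hcS : ∀ k ∈ S, c k = 1 ∨ c k = -1 := fun k hk => sq_one (hb k hk.2) hk.1
  have hcc : ∀ k ∈ S, c k * c k = 1 := fun k hk => by
    rcases hcS k hk with h1 | h1 <;> rw [h1] <;> norm_num
  have hbd : ∀ k, |c k| ≤ 2 := by
    intro k
    by_cases h0 : k = 0
    · rw [h0, h.zero]
      norm_num
    · exact (hb k h0).trans (by norm_num)
  obtain ⟨e, g, n, hg, hn, hlim⟩ := h.shift_lim U (fun _ => {0}) (fun k _ => c k) (fun k _ => k)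
    (C := 4) (fun k a => by
      unfold W
      rw [Finset.sum_singleton, norm_smul, Real.norm_eq_abs]
      have h1 := h.norm_le (a + k)
      have h2 : |(c k : ℝ)| ≤ 2 := by exact_mod_cast hbd k
      have h3 := norm_nonneg (v (a + k))
      have h4 := abs_nonneg (c k : ℝ)
      nlinarith)
  have hlim' : ∀ a z, Tendsto (fun k => (c k : ℝ) * inner ℝ z (v (a + k))) U
      (𝓝 (inner ℝ z (e a))) := by
    intro a z
    refine (hlim a z).congr fun k => ?_
    unfold W
    rw [Finset.sum_singleton, real_inner_smul_right]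
  -- the first values
  have hg0 : g 0 = 1 := by
    have h1 := hlim' 0 (v 0)
    rw [hg, sub_self] at h1
    have h2 : Tendsto (fun k => (c k : ℝ) * inner ℝ (v 0) (v (0 + k))) U (𝓝 (1 : ℝ)) := by
      refine tendsto_const_nhds.congr' ?_
      filter_upwards [hUS] with k hk
      rw [zero_add, h.inn, zero_sub, h.symm]
      exact_mod_cast (hcc k hk).symm
    exact_mod_cast tendsto_nhds_unique h1 h2
  have hn0 : ∀ a, inner ℝ (e a) (e a) = (n 0 : ℝ) := fun a => by rw [hn, sub_self]
  have hn1 : 1 ≤ n 0 := by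
    have h1 := real_inner_mul_inner_self_le (v 0) (e 0)
    rw [hg, sub_self, hg0, h.norm_sq, hn0] at h1
    by_contra hcon
    push Not at hcon
    have h2 : (n 0 : ℝ) ≤ 0 := by exact_mod_cast (by omega : n 0 ≤ 0)
    norm_num at h1
    linarith
  have hev : ∀ᶠ k in (U : Filter ℤ), c k * g k = n 0 := by
    have h1 := hlim' 0 (e 0)
    rw [hn0] at h1
    refine int_lim_eq (n := fun k => c k * g k) (h1.congr fun k => ?_)
    rw [real_inner_comm, hg, zero_add, sub_zero]
    push_cast
    rfl
  have hn2 : n 0 ≤ 2 := by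
    obtain ⟨k, hk, hkS⟩ := (hev.and hUS).exists
    have h1 := real_inner_mul_inner_self_le (v k) (e 0)
    rw [hg, sub_zero, h.norm_sq, hn0] at h1
    have h2 : (g k * g k : ℤ) ≤ 2 * n 0 := by exact_mod_cast h1
    have h3 : g k * g k = n 0 * n 0 := by
      have h4 := hcc k hkS
      calc g k * g k = (c k * c k) * (g k * g k) := by rw [h4, one_mul]
        _ = (c k * g k) * (c k * g k) := by ring
        _ = n 0 * n 0 := by rw [hk]
    rw [h3] at h2
    by_contra hcon
    push Not at hcon
    nlinarith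
  have hn3 : n 0 ≠ 2 := by
    intro h2
    have h3 := hinfU (hev.and hUS)
    obtain ⟨k, hk⟩ := h3.nonempty
    obtain ⟨l, hl, hlk⟩ := h3.exists_notMem_finset {k}
    rw [Finset.mem_singleton] at hlk
    have h4 : ∀ j, (c j * g j = n 0 ∧ j ∈ S) → (c j : ℝ) • v j = e 0 := by
      rintro j ⟨hj, hjS⟩
      refine eq_of_inner_two ?_ (by rw [hn0, h2]; norm_num) ?_
      · rw [real_inner_smul_left, real_inner_smul_right, h.norm_sq, ← mul_assoc]
        have : ((c j * c j : ℤ) : ℝ) = 1 := by rw [hcc j hjS]; norm_num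
        push_cast at this
        rw [this]
        norm_num
      · rw [real_inner_smul_left, hg, sub_zero]
        have : ((c j * g j : ℤ) : ℝ) = 2 := by rw [hj, h2]; norm_num
        push_cast at this
        exact this
    have h5 : inner ℝ ((c k : ℝ) • v k) ((c l : ℝ) • v l) = (2 : ℝ) := by
      rw [h4 k hk, h4 l hl, hn0, h2]
      norm_num
    rw [real_inner_smul_left, real_inner_smul_right, h.inn] at h5
    have h6 : c k * (c l * c (k - l)) = 2 := by exact_mod_cast h5
    have h7 : |c (k - l)| ≤ 1 := hb _ (sub_ne_zero.2 (Ne.symm hlk))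
    rw [abs_le] at h7
    rcases hcS k hk.2 with hk1 | hk1 <;> rcases hcS l hl.2 with hl1 | hl1 <;>
      rw [hk1, hl1] at h6 <;> omega
  have hn4 : n 0 = 1 := by omega
  have hne1 : ∀ a, inner ℝ (e a) (e a) = (1 : ℝ) := fun a => by rw [hn0, hn4]; norm_num
  have hnint : ∀ k, n k = 0 ∨ n k = 1 ∨ n k = -1 := fun k =>
    int_unit (hne1 k) (hne1 0) (by rw [hn, sub_zero])
  have hshift : ∀ k, n k ≠ 0 → ∀ a, e (a + k) = (n k : ℝ) • e a := by
    intro k hk a
    refine eq_of_inner_one (hne1 _) (hne1 _) ((hnint k).resolve_left hk) ?_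
    rw [hn]
    congr 2
    ring
  have hmul : ∀ k l, n k ≠ 0 → n (k + l) = n k * n l := by
    intro k l hk
    have h1 := hn (l + k) 0
    rw [hshift k hk l, real_inner_smul_left, hn, sub_zero, sub_zero] at h1
    rw [add_comm k l]
    exact_mod_cast h1.symm
  have hsymn : ∀ k, n (-k) = n k := by
    intro k
    have h1 := hn 0 k
    have h2 := hn k 0
    rw [real_inner_comm, h2, sub_zero, zero_sub] at h1
    exact_mod_cast h1.symm
  -- a coincidence
  have hcoin : ∃ m : ℕ, 0 < m ∧ n m ≠ 0 := by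
    by_contra hcon
    push Not at hcon
    have hz : ∀ k : ℤ, k ≠ 0 → n k = 0 := by
      intro k hk
      rcases lt_or_gt_of_ne hk with h1 | h1
      · have h2 := hcon (-k).toNat (by omega)
        rw [← hsymn]
        rwa [Int.toNat_of_nonneg (by omega)] at h2
      · have h2 := hcon k.toNat (by omega)
        rwa [Int.toNat_of_nonneg (by omega)] at h2
    have h3 := hinfU (hev.and hUS)
    obtain ⟨k₁, hk₁⟩ := h3.nonempty
    obtain ⟨k₂, hk₂, h21⟩ := h3.exists_notMem_finset {k₁}
    obtain ⟨k₃, hk₃, h31⟩ := h3.exists_notMem_finset {k₁, k₂}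
    rw [Finset.mem_singleton] at h21
    rw [Finset.mem_insert, Finset.mem_singleton, not_or] at h31
    have hgk : ∀ k, (c k * g k = n 0 ∧ k ∈ S) → g k * g k = 1 := by
      rintro k ⟨h4, h5⟩
      have h6 := hcc k h5
      rw [hn4] at h4
      calc g k * g k = (c k * c k) * (g k * g k) := by rw [h6, one_mul]
        _ = (c k * g k) * (c k * g k) := by ring
        _ = 1 := by rw [h4]; norm_num
    set z : H := v 0 - (g k₁ : ℝ) • e (-k₁) - (g k₂ : ℝ) • e (-k₂) - (g k₃ : ℝ) • e (-k₃) with hz'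
    have hve : ∀ k, inner ℝ (v 0) (e (-k)) = (g k : ℝ) := fun k => by
      rw [hg, zero_sub, neg_neg]
    have hev' : ∀ k, inner ℝ (e (-k)) (v 0) = (g k : ℝ) := fun k => by
      rw [real_inner_comm, hve]
    have h12 : inner ℝ (e (-k₁)) (e (-k₂)) = (0 : ℝ) := by
      rw [hn, hz _ (by omega)]
      norm_num
    have h13 : inner ℝ (e (-k₁)) (e (-k₃)) = (0 : ℝ) := by
      rw [hn, hz _ (by omega)]
      norm_num
    have h23 : inner ℝ (e (-k₂)) (e (-k₃)) = (0 : ℝ) := by
      rw [hn, hz _ (by omega)]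
      norm_num
    have h12' : inner ℝ (e (-k₂)) (e (-k₁)) = (0 : ℝ) := by rw [real_inner_comm, h12]
    have h13' : inner ℝ (e (-k₃)) (e (-k₁)) = (0 : ℝ) := by rw [real_inner_comm, h13]
    have h23' : inner ℝ (e (-k₃)) (e (-k₂)) = (0 : ℝ) := by rw [real_inner_comm, h23]
    have g1 : (g k₁ : ℝ) * g k₁ = 1 := by exact_mod_cast hgk k₁ hk₁
    have g2 : (g k₂ : ℝ) * g k₂ = 1 := by exact_mod_cast hgk k₂ hk₂
    have g3 : (g k₃ : ℝ) * g k₃ = 1 := by exact_mod_cast hgk k₃ hk₃
    have h9 : inner ℝ z z = (-1 : ℝ) := by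
      rw [hz']
      simp only [inner_sub_left, inner_sub_right, real_inner_smul_left, real_inner_smul_right,
        h.norm_sq, hve, hev', h12, h13, h23, h12', h13', h23', hne1]
      linear_combination (-1 : ℝ) * g1 - g2 - g3
    have h10 := real_inner_self_nonneg (x := z)
    rw [h9] at h10
    norm_num at h10
  set m₀ := Nat.find hcoin with hm₀
  have hm₀1 : 0 < m₀ := (Nat.find_spec hcoin).1
  have hm₀2 : n m₀ ≠ 0 := (Nat.find_spec hcoin).2
  have hm₀3 : ∀ m : ℕ, 0 < m → m < m₀ → n m = 0 := by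
    intro m hm hlt
    by_contra hcon
    exact Nat.find_min hcoin hlt ⟨hm, hcon⟩
  set η : ℤ := n m₀ with hη
  have hη1 : η = 1 ∨ η = -1 := (hnint _).resolve_left hm₀2
  have hpow : ∀ q : ℕ, n (m₀ * q) = η ^ q := by
    intro q
    induction q with
    | zero => simp [hn4]
    | succ q ih =>
      have e1 : ((m₀ : ℤ) * ((q + 1 : ℕ) : ℤ)) = m₀ + m₀ * q := by push_cast; ring
      rw [e1, hmul _ _ hm₀2, ih, pow_succ]
      ring
  have hηne : ∀ q : ℕ, η ^ q ≠ 0 := fun q => pow_ne_zero q hm₀2
  have hdvd : ∀ k : ℤ, n k = if (m₀ : ℤ) ∣ k then η ^ (k / m₀).natAbs else 0 := by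
    intro k
    split_ifs with hk
    · obtain ⟨q, rfl⟩ := hk
      have hm' : (m₀ : ℤ) ≠ 0 := by exact_mod_cast hm₀1.ne'
      rw [Int.mul_ediv_cancel_left _ hm']
      rcases Int.natAbs_eq q with h1 | h1
      · conv_lhs => rw [h1]
        exact hpow _
      · conv_lhs => rw [h1]
        rw [mul_neg, hsymn]
        exact hpow _
    · by_contra hcon
      -- the remainder
      have hm' : (0 : ℤ) < m₀ := by exact_mod_cast hm₀1
      set r := k % m₀ with hr
      have hr0 : 0 ≤ r := Int.emod_nonneg _ hm'.ne'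
      have hr1 : r < m₀ := Int.emod_lt_of_pos _ hm'
      have hr2 : r ≠ 0 := fun h1 => hk (Int.dvd_of_emod_eq_zero h1)
      have hkr : k = m₀ * (k / m₀) + r := (Int.mul_ediv_add_emod k m₀).symm
      have h1 : n (m₀ * (k / m₀)) ≠ 0 := by
        rcases Int.natAbs_eq (k / m₀) with h2 | h2
        · rw [h2, hpow]
          exact hηne _
        · rw [h2, mul_neg, hsymn, hpow]
          exact hηne _
      have h2 := hmul _ r h1
      rw [← hkr] at h2
      have h3 : n r = 0 := by
        have h4 := hm₀3 r.toNat (by omega) (by omega)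
        rwa [Int.toNat_of_nonneg hr0] at h4
      rw [h3, mul_zero] at h2
      exact hcon h2
  -- the period of `e`
  have hη2 : (η : ℝ) * η = 1 := by
    rcases hη1 with h1 | h1 <;> rw [h1] <;> norm_num
  have hper : Function.Periodic e (2 * m₀ : ℤ) := by
    intro a
    have e1 : a + 2 * (m₀ : ℤ) = a + m₀ + m₀ := by ring
    rw [e1, hshift _ hm₀2, hshift _ hm₀2, smul_smul, hη2, one_smul]
  -- the other component
  set f : ℤ → H := fun a => v a - e a with hf
  have hfe : ∀ a b, inner ℝ (f a) (e b) = ((g (a - b) - n (a - b) : ℤ) : ℝ) := by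
    intro a b
    rw [hf]
    simp only
    rw [inner_sub_left, hg, hn]
    push_cast
    rfl
  have hff : ∀ a b, inner ℝ (f a) (f b) =
      ((c (a - b) - g (a - b) - g (b - a) + n (a - b) : ℤ) : ℝ) := by
    intro a b
    rw [hf]
    simp only
    rw [inner_sub_left, inner_sub_right, inner_sub_right, h.inn, hg, hn, real_inner_comm, hg]
    push_cast
    ring
  have hf1 : ∀ a, inner ℝ (f a) (f a) = (1 : ℝ) := by
    intro a
    rw [hff, sub_self, h.zero, hg0, hn4]
    norm_num
  have hgn : ∀ j, g j = n j := by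
    intro j
    by_contra hcon
    have h1 : ∀ a, f a = ((g j - n j : ℤ) : ℝ) • e (a - j) := by
      intro a
      have h2 : inner ℝ (f a) (e (a - j)) = ((g j - n j : ℤ) : ℝ) := by
        rw [hfe]
        congr 2 <;> congr 1 <;> ring
      refine eq_of_inner_one (hf1 a) (hne1 _) ?_ h2
      exact (int_unit (hf1 a) (hne1 _) h2).resolve_left (sub_ne_zero.2 hcon)
    refine h.no_period hb (T := 2 * m₀) (by positivity) ?_
    have h2 : ∀ a, v a = e a + ((g j - n j : ℤ) : ℝ) • e (a - j) := by
      intro a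
      rw [← h1, hf]
      simp
    rw [h2, h2]
    have e1 := hper 0
    have e2 := hper (0 - j)
    rw [zero_add] at e1
    rw [e1]
    congr 2
    rw [← e2]
    congr 1
    ring
  have hck : ∀ k, k ≠ 0 → c k = n k := by
    intro k hk
    by_contra hcon
    have h0 : c k - g k - g (-k) + n k = c k - n k := by
      rw [hgn, hgn, hsymn]
      ring
    have h1 : ∀ a, f (a + k) = ((c k - n k : ℤ) : ℝ) • f a := by
      intro a
      have h2 : inner ℝ (f (a + k)) (f a) = ((c k - n k : ℤ) : ℝ) := by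
        rw [hff, ← h0]
        congr 2
        · congr 1
          · congr 1
            · congr 1
              ring
            · congr 1
              ring
          · congr 1
            ring
        · congr 1
          ring
      refine eq_of_inner_one (hf1 _) (hf1 _) ?_ h2
      exact (int_unit (hf1 _) (hf1 _) h2).resolve_left (sub_ne_zero.2 hcon)
    have hu : ((c k - n k : ℤ) : ℝ) * ((c k - n k : ℤ) : ℝ) = 1 := by
      have h2 : inner ℝ (f (0 + k)) (f 0) = ((c k - n k : ℤ) : ℝ) := by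
        rw [h1 0, real_inner_smul_left, hf1, mul_one]
      rcases (int_unit (hf1 _) (hf1 _) h2).resolve_left (sub_ne_zero.2 hcon) with h3 | h3 <;>
        rw [h3] <;> norm_num
    have hperf : Function.Periodic f (2 * k) := by
      intro a
      have e1 : a + 2 * k = a + k + k := by ring
      rw [e1, h1, h1, smul_smul, hu, one_smul]
    have p1 := hperf.int_mul m₀
    have p2 := hper.int_mul k
    refine h.no_period hb (T := m₀ * (2 * k)) (by positivity) ?_
    have h2 : ∀ a, v a = e a + f a := by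
      intro a
      rw [hf]
      simp
    rw [h2, h2]
    congr 1
    · have := p2 0
      rw [zero_add, Int.cast_id] at this
      rw [← this]
      congr 1
      ring
    · have := p1 0
      rw [zero_add] at this
      exact this
  refine ⟨m₀, by exact_mod_cast hm₀1, η, hη1, fun k => ?_⟩
  by_cases hk : k = 0
  · rw [hk, h.zero, if_pos rfl, if_pos (dvd_zero _)]
    simp
  · rw [if_neg hk, zero_add, hck k hk, hdvd k]

/-- the case of finite support -/
theorem Gr.finite (h : Gr c v) (hb : ∀ m : ℤ, m ≠ 0 → |c m| ≤ 1)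
    (hfin : {k | c k ≠ 0}.Finite) (hne : ∃ k : ℤ, k ≠ 0 ∧ c k ≠ 0) :
    ∃ m : ℤ, 0 < m ∧ ∃ ε : ℤ, (ε = 1 ∨ ε = -1) ∧
      ∀ k, c k = if k = 0 then 2 else if k = m ∨ k = -m then ε else 0 := by
  classical
  -- the largest index
  obtain ⟨N, hN0, hNc, hNmax⟩ : ∃ N : ℕ, 0 < N ∧ c N ≠ 0 ∧ ∀ k : ℤ, (N : ℤ) < |k| → c k = 0 := by
    obtain ⟨k₀, hk₀, hk₀'⟩ := hne
    obtain ⟨K, hK, hKmax⟩ := Set.exists_max_image {k | c k ≠ 0} (fun k => |k|) hfin ⟨k₀, hk₀'⟩
    refine ⟨K.natAbs, ?_, ?_, fun k hk => ?_⟩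
    · have h1 := hKmax k₀ hk₀'
      have h2 := abs_pos.2 hk₀
      rw [Int.natAbs_pos]
      intro h3
      rw [h3, abs_zero] at h1
      omega
    · rcases Int.natAbs_eq K with h1 | h1
      · rw [← h1]
        exact hK
      · have h2 : ((K.natAbs : ℕ) : ℤ) = -K := by omega
        rw [h2, h.symm]
        exact hK
    · by_contra hcon
      have h1 := hKmax k hcon
      rw [Int.abs_eq_natAbs K] at h1
      omega
  have hN : (0 : ℤ) < N := by exact_mod_cast hN0
  set ε : ℤ := c N with hε
  have hε1 : ε = 1 ∨ ε = -1 := sq_one (hb _ hN.ne') hNc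
  have hε2 : ε * ε = 1 := by rcases hε1 with h1 | h1 <;> rw [h1] <;> norm_num
  have hεR : (ε : ℝ) * ε = 1 := by exact_mod_cast hε2
  have hjN : ∀ j : ℤ, 2 ≤ |j| → c (j * N) = 0 := by
    intro j hj
    apply hNmax
    rw [abs_mul, abs_of_pos hN]
    nlinarith
  -- the sums
  set w : ℕ → ℤ → H := fun i a =>
    W v (Finset.range (i + 1)) (fun j => (-ε) ^ j) (fun j => j * N) a with hw
  have hw0 : ∀ a, w 0 a = v a := by
    intro a
    rw [hw]
    simp [W]
  have hws : ∀ i a, w (i + 1) a = w i a + ((-ε : ℤ) : ℝ) ^ (i + 1) • v (a + (i + 1) * N) := by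
    intro i a
    rw [hw]
    simp only [W]
    rw [Finset.sum_range_succ]
    push_cast
    rfl
  have hwv : ∀ i a, inner ℝ (w i a) (v (a + (i + 1) * N)) = ((-ε : ℤ) : ℝ) ^ i * ε := by
    intro i
    induction i with
    | zero =>
      intro a
      rw [hw0, h.inn, pow_zero, one_mul]
      have e1 : a - (a + (((0 : ℕ) : ℤ) + 1) * N) = -N := by push_cast; ring
      rw [e1, h.symm]
    | succ i ih =>
      intro a
      rw [hws, inner_add_left, real_inner_smul_left, h.inn]
      have e1 : a + (i + 1) * N - (a + (((i + 1 : ℕ) : ℤ) + 1) * N) = -N := by push_cast; ring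
      rw [e1, h.symm]
      have e2 : inner ℝ (w i a) (v (a + (((i + 1 : ℕ) : ℤ) + 1) * N)) = (0 : ℝ) := by
        rw [hw]
        simp only [W]
        rw [sum_inner]
        refine Finset.sum_eq_zero fun j hj => ?_
        rw [Finset.mem_range] at hj
        rw [real_inner_smul_left, h.inn]
        have e3 : a + j * N - (a + (((i + 1 : ℕ) : ℤ) + 1) * N) = (j - (i + 2)) * N := by
          push_cast; ring
        rw [e3, hjN _ (by
          have : (j : ℤ) - (i + 2) ≤ -2 := by omega
          rw [abs_of_nonpos (by omega)]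
          omega)]
        push_cast
        ring
      rw [e2, zero_add]
  have hwn : ∀ i a, inner ℝ (w i a) (w i a) = (2 : ℝ) := by
    intro i
    induction i with
    | zero =>
      intro a
      rw [hw0, h.norm_sq]
    | succ i ih =>
      intro a
      rw [hws, inner_add_left, inner_add_right, inner_add_right, ih, real_inner_smul_left,
        real_inner_smul_right, real_inner_smul_right, real_inner_smul_left, h.norm_sq,
        real_inner_comm (w i a), hwv]
      have hp : (((-ε : ℤ) : ℝ) ^ i) * (((-ε : ℤ) : ℝ) ^ i) = 1 := by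
        rw [← mul_pow]
        push_cast
        rw [neg_mul_neg, hεR, one_pow]
      rw [pow_succ]
      push_cast at hp ⊢
      linear_combination (-2 * (ε : ℝ) * ε + 2 * (ε : ℝ) * ε) * hp +
        (2 : ℝ) * ((-(ε : ℝ)) ^ i * (-(ε : ℝ)) ^ i) * 0 * hεR
  have hwb : ∀ i a, ‖w i a‖ ≤ 2 := by
    intro i a
    have h1 := hwn i a
    rw [real_inner_self_eq_norm_sq] at h1
    have h0 := norm_nonneg (w i a)
    nlinarith
  obtain ⟨U, hU⟩ : ∃ U : Ultrafilter ℕ, (U : Filter ℕ) ≤ atTop := Ultrafilter.exists_le _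
  obtain ⟨e, g, n, hg, hn, hlim⟩ := h.shift_lim U (fun i => Finset.range (i + 1))
    (fun _ j => (-ε) ^ j) (fun _ j => j * N) (C := 2) (fun i a => hwb i a)
  have hlim' : ∀ a z, Tendsto (fun i => inner ℝ z (w i a)) U (𝓝 (inner ℝ z (e a))) := hlim
  -- the telescoping relation
  have htel : ∀ i a, w i a + (ε : ℝ) • w i (a + N) =
      v a - ((-ε : ℤ) : ℝ) ^ (i + 1) • v (a + (i + 1) * N) := by
    intro i
    induction i with
    | zero =>
      intro a
      rw [hw0, hw0, zero_add, pow_one]
      push_cast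
      rw [one_mul, neg_smul, sub_neg_eq_add]
    | succ i ih =>
      intro a
      rw [hws, hws, smul_add]
      have e1 : w i a + ((-ε : ℤ) : ℝ) ^ (i + 1) • v (a + (i + 1) * N) +
          ((ε : ℝ) • w i (a + N) + (ε : ℝ) • ((-ε : ℤ) : ℝ) ^ (i + 1) • v (a + N + (i + 1) * N)) =
          (w i a + (ε : ℝ) • w i (a + N)) + (((-ε : ℤ) : ℝ) ^ (i + 1) • v (a + (i + 1) * N) +
          (ε : ℝ) • ((-ε : ℤ) : ℝ) ^ (i + 1) • v (a + N + (i + 1) * N)) := by abel
      rw [e1, ih]
      have e2 : a + (N : ℤ) + (i + 1) * N = a + (((i + 1 : ℕ) : ℤ) + 1) * N := by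
        push_cast; ring
      rw [e2, smul_smul]
      have e3 : ((-ε : ℤ) : ℝ) ^ (i + 1 + 1) = -((ε : ℝ) * ((-ε : ℤ) : ℝ) ^ (i + 1)) := by
        rw [pow_succ _ (i + 1)]
        push_cast
        ring
      rw [e3, neg_smul, sub_neg_eq_add]
      abel
  -- the vectors in terms of the limits
  have hp1 : ∀ i : ℕ, |((-ε : ℤ) : ℝ) ^ i| = 1 := by
    intro i
    rw [abs_pow]
    rcases hε1 with h1 | h1 <;> rw [h1] <;> norm_num
  set y : ℤ → H := fun a => v a - e a - (ε : ℝ) • e (a + N) with hy
  have hylim : ∀ a z, Tendsto (fun i : ℕ => ((-ε : ℤ) : ℝ) ^ (i + 1) *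
      inner ℝ z (v (a + (i + 1) * N))) U (𝓝 (inner ℝ z (y a))) := by
    intro a z
    have h1 : Tendsto (fun i => inner ℝ z (v a) - inner ℝ z (w i a) -
        (ε : ℝ) * inner ℝ z (w i (a + N))) U
        (𝓝 (inner ℝ z (v a) - inner ℝ z (e a) - (ε : ℝ) * inner ℝ z (e (a + N)))) :=
      (tendsto_const_nhds.sub (hlim' a z)).sub ((hlim' (a + N) z).const_mul _)
    have e1 : inner ℝ z (y a) =
        inner ℝ z (v a) - inner ℝ z (e a) - (ε : ℝ) * inner ℝ z (e (a + N)) := by
      rw [hy]
      simp only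
      rw [inner_sub_right, inner_sub_right, real_inner_smul_right]
    rw [e1]
    refine h1.congr fun i => ?_
    have h2 := congrArg (fun t => inner ℝ z t) (htel i a)
    simp only [inner_add_right, inner_sub_right, real_inner_smul_right] at h2
    linarith
  have hyv : ∀ a b, inner ℝ (v b) (y a) = (0 : ℝ) := by
    intro a b
    refine tendsto_nhds_unique (hylim a (v b)) ?_
    refine tendsto_const_nhds.congr' ?_
    have h1 : ∀ᶠ i : ℕ in atTop, c (b - (a + (i + 1) * N)) = 0 := by
      filter_upwards [eventually_ge_atTop ((|b - a| + N).toNat)] with i hi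
      apply hNmax
      have h2 : |b - a| + N ≤ i := by
        have := Int.self_le_toNat (|b - a| + N)
        omega
      have h3 : (i : ℤ) + 1 ≤ (i + 1) * N := by nlinarith
      have h4 := neg_abs_le (b - a)
      have h5 := le_abs_self (b - a)
      rw [lt_abs]
      right
      linarith
    filter_upwards [hU h1] with i hi
    rw [h.inn, hi]
    push_cast
    ring
  have hy0 : ∀ a, y a = 0 := by
    intro a
    have h1 := hylim a (y a)
    have h2 : inner ℝ (y a) (y a) = (0 : ℝ) := by
      refine tendsto_nhds_unique h1 (tendsto_const_nhds.congr fun i => ?_)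
      rw [real_inner_comm, hyv, mul_zero]
    exact inner_self_eq_zero.1 h2
  have hv : ∀ a, v a = e a + (ε : ℝ) • e (a + N) := by
    intro a
    have h1 := hy0 a
    rw [hy] at h1
    simp only at h1
    rw [sub_sub, sub_eq_zero] at h1
    exact h1
  -- the first inner product
  have hg0 : g 0 = 1 := by
    have h1 := hlim' 0 (v 0)
    rw [hg, sub_self] at h1
    have h2 : Tendsto (fun i => inner ℝ (v 0) (w i 0)) U (𝓝 (1 : ℝ)) := by
      refine tendsto_const_nhds.congr' ?_
      filter_upwards [hU (eventually_ge_atTop 1)] with i hi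
      obtain ⟨i, rfl⟩ : ∃ i', i = i' + 1 := ⟨i - 1, by omega⟩
      rw [hw]
      simp only [W]
      rw [inner_sum, Finset.sum_range_succ', Finset.sum_range_succ']
      have e1 : ∑ k ∈ Finset.range i, inner ℝ (v 0)
          ((((-ε) ^ (k + 1 + 1) : ℤ) : ℝ) • v (0 + ((k + 1 + 1 : ℕ) : ℤ) * N)) = (0 : ℝ) := by
        refine Finset.sum_eq_zero fun k _ => ?_
        rw [real_inner_smul_right, h.inn]
        have e2 : (0 : ℤ) - (0 + ((k + 1 + 1 : ℕ) : ℤ) * N) = (-(k + 2)) * N := by
          push_cast; ring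
        rw [e2, hjN _ (by rw [abs_neg, abs_of_nonneg (by omega)]; omega)]
        push_cast
        ring
      rw [e1, real_inner_smul_right, real_inner_smul_right, h.inn, h.inn]
      have e3 : (0 : ℤ) - (0 + ((0 + 1 : ℕ) : ℤ) * N) = -N := by push_cast; ring
      have e4 : (0 : ℤ) - (0 + ((0 : ℕ) : ℤ) * N) = 0 := by push_cast; ring
      rw [e3, e4, h.symm, h.zero, ← hε]
      push_cast
      linear_combination hεR
    exact_mod_cast tendsto_nhds_unique h1 h2
  have hgrec : ∀ d, g d + ε * g (d - N) = c d := by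
    intro d
    have h1 : inner ℝ (v d) (v 0) = (g d : ℝ) + ε * g (d - N) := by
      rw [hv 0, inner_add_right, real_inner_smul_right, hg, hg, sub_zero, zero_add]
    rw [h.inn, sub_zero] at h1
    exact_mod_cast h1.symm
  have hgj : ∀ j : ℕ, g ((j + 1) * N) = 0 := by
    intro j
    induction j with
    | zero =>
      have h1 := hgrec N
      rw [sub_self, hg0, mul_one, ← hε] at h1
      have e1 : (((0 : ℕ) : ℤ) + 1) * N = N := by push_cast; ring
      rw [e1]
      linarith
    | succ j ih =>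
      have h1 := hgrec ((((j + 1 : ℕ) : ℤ) + 1) * N)
      have e1 : (((j + 1 : ℕ) : ℤ) + 1) * N - N = (j + 1) * N := by push_cast; ring
      rw [e1, ih, mul_zero, add_zero, hjN _ (by
        rw [abs_of_nonneg (by omega)]
        push_cast
        omega)] at h1
      exact h1
  have hn0 : n 0 = 1 := by
    have h1 := hlim' 0 (e 0)
    rw [hn, sub_self] at h1
    have h2 : Tendsto (fun i => inner ℝ (e 0) (w i 0)) U (𝓝 (1 : ℝ)) := by
      refine tendsto_const_nhds.congr fun i => ?_
      rw [hw]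
      simp only [W]
      rw [inner_sum, Finset.sum_range_succ']
      have e1 : ∑ k ∈ Finset.range i, inner ℝ (e 0)
          ((((-ε) ^ (k + 1) : ℤ) : ℝ) • v (0 + ((k + 1 : ℕ) : ℤ) * N)) = (0 : ℝ) := by
        refine Finset.sum_eq_zero fun k _ => ?_
        rw [real_inner_smul_right, real_inner_comm, hg]
        have e2 : (0 : ℤ) + ((k + 1 : ℕ) : ℤ) * N - 0 = (k + 1) * N := by push_cast; ring
        rw [e2, hgj]
        push_cast
        ring
      rw [e1, real_inner_smul_right, real_inner_comm, hg]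
      have e4 : (0 : ℤ) + ((0 : ℕ) : ℤ) * N - 0 = 0 := by push_cast; ring
      rw [e4, hg0]
      push_cast
      ring
    exact_mod_cast tendsto_nhds_unique h1 h2
  have hne1 : ∀ a, inner ℝ (e a) (e a) = (1 : ℝ) := fun a => by
    rw [hn, sub_self, hn0]
    norm_num
  have hnz : ∀ k, k ≠ 0 → n k = 0 := by
    intro k hk
    by_contra hcon
    have h1 : n k = 1 ∨ n k = -1 :=
      (int_unit (hne1 k) (hne1 0) (by rw [hn, sub_zero])).resolve_left hcon
    have h2 : ∀ a, e (a + k) = (n k : ℝ) • e a := by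
      intro a
      refine eq_of_inner_one (hne1 _) (hne1 _) h1 ?_
      rw [hn]
      congr 2
      ring
    have h3 : ∀ a, e (a + 2 * k) = e a := by
      intro a
      have e1 : a + 2 * k = a + k + k := by ring
      rw [e1, h2, h2, smul_smul]
      have : (n k : ℝ) * n k = 1 := by rcases h1 with h1 | h1 <;> rw [h1] <;> norm_num
      rw [this, one_smul]
    refine h.no_period hb (T := 2 * k) (by omega) ?_
    have e1 : 2 * k + (N : ℤ) = (0 + N) + 2 * k := by ring
    have e2 : 2 * k = 0 + 2 * k := by ring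
    rw [hv, hv 0, e1, h3, e2, h3]
  have hnk : ∀ k, n k = if k = 0 then 1 else 0 := by
    intro k
    split_ifs with hk
    · rw [hk, hn0]
    · exact hnz k hk
  refine ⟨N, hN, ε, hε1, fun k => ?_⟩
  have h1 : inner ℝ (v k) (v 0) = (n k : ℝ) + ε * n (k - N) + ε * (n (k + N) + ε * n k) := by
    rw [hv k, hv 0, inner_add_right, inner_add_left, inner_add_left, real_inner_smul_left,
      real_inner_smul_right, real_inner_smul_left, real_inner_smul_right, hn, hn, hn, hn]
    have e1 : k + (N : ℤ) - (0 + N) = k := by ring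
    have e2 : k - (0 + (N : ℤ)) = k - N := by ring
    have e3 : k + (N : ℤ) - 0 = k + N := by ring
    rw [e1, e2, e3, sub_zero]
    ring
  rw [h.inn, sub_zero] at h1
  have h2 : c k = n k + ε * n (k - N) + ε * (n (k + N) + ε * n k) := by exact_mod_cast h1
  rw [h2, hnk, hnk, hnk]
  by_cases hk : k = 0
  · rw [hk, if_pos rfl, if_neg (by omega), if_neg (by omega), if_pos rfl]
    linear_combination hε2
  · rw [if_neg hk, if_neg hk]
    by_cases hkN : k = N
    · rw [if_pos (by omega), if_neg (by omega), if_pos (Or.inl hkN)]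
      ring
    · by_cases hkN' : k = -N
      · rw [if_neg (by omega), if_pos (by omega), if_pos (Or.inr hkN')]
        ring
      · rw [if_neg (by omega), if_neg (by omega), if_neg (by
          rintro (h3 | h3)
          · exact hkN h3
          · exact hkN' h3)]
        ring

end

end Pool.Agent.Y798.RG
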